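import Mathlib

set_option autoImplicit false

namespace Pool.Agent.Helper351.RE

/-- the commutator map `x ↦ [x, g] = x⁻¹ g⁻¹ x g` -/
def F {G : Type*} [Group G] (g x : G) : G := x⁻¹ * g⁻¹ * x * g

theorem F_conj {G : Type*} [Group G] (g t x : G) :
    F g (t⁻¹ * x * t) = t⁻¹ * F (t * g * t⁻¹) x * t := by
  unfold F; group

theorem iter_F_conj {G : Type*} [Group G] (g t x : G) (n : ℕ) :
    (F g)^[n] (t⁻¹ * x * t) = t⁻¹ * (F (t * g * t⁻¹))^[n] x * t := by
  induction n with
  | zero => rfl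
  | succ n ih =>
    rw [Function.iterate_succ_apply', Function.iterate_succ_apply', ih, F_conj]

theorem F_one {G : Type*} [Group G] (g : G) : F g 1 = 1 := by
  unfold F; group

theorem iter_F_one {G : Type*} [Group G] (g : G) (n : ℕ) : (F g)^[n] 1 = 1 := by
  induction n with
  | zero => rfl
  | succ n ih => rw [Function.iterate_succ_apply', ih, F_one]

theorem iter_mono {G : Type*} [Group G] (g x : G) {n m : ℕ} (h : n ≤ m)
    (hx : (F g)^[n] x = 1) : (F g)^[m] x = 1 := by
  obtain ⟨k, rfl⟩ := Nat.exists_eq_add_of_le' h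
  rw [Function.iterate_add_apply, hx, iter_F_one]

/-- Heineken: the inverse of a right `n`-Engel element is left `(n+1)`-Engel -/
theorem heineken {G : Type*} [Group G] (a : G) (n : ℕ)
    (h : ∀ g, (F g)^[n] a = 1) (x : G) : (F a⁻¹)^[n + 1] x = 1 := by
  have h0 : ∀ g, (F g)^[n + 1] a = 1 := fun g => iter_mono g a (Nat.le_succ n) (h g)
  -- F a⁻¹ x = (x⁻¹ * a * x) * a⁻¹
  have e1 : F a⁻¹ x = (x⁻¹ * a * x) * a⁻¹ := by unfold F; group
  have e2 : ∀ u : G, F a⁻¹ (u * a⁻¹) = a⁻¹⁻¹ * F a⁻¹ u * a⁻¹ := by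
    intro u; unfold F; group
  have e3 : ∀ z : G, F a⁻¹ (a⁻¹⁻¹ * z * a⁻¹) = a⁻¹⁻¹ * F a⁻¹ z * a⁻¹ := by
    intro z; unfold F; group
  rcases n with _ | n
  · have h1 : a = 1 := h 1
    rw [h1]
    show F (1 : G)⁻¹ x = 1
    unfold F; group
  · rw [Function.iterate_succ_apply, e1]
    have key : ∀ k : ℕ, (F a⁻¹)^[k + 1] ((x⁻¹ * a * x) * a⁻¹) =
        a⁻¹⁻¹ * (F a⁻¹)^[k + 1] (x⁻¹ * a * x) * a⁻¹ := by
      intro k
      induction k with
      | zero => exact e2 _
      | succ k ih =>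
        rw [Function.iterate_succ_apply', ih, e3, ← Function.iterate_succ_apply' (F a⁻¹)]
    rw [key, iter_F_conj, h]
    group

/-- the subgroup generated by `a, a^g, …, a^(g^(N-1))` -/
def Orb {G : Type*} [Group G] (a g : G) (N : ℕ) : Subgroup G :=
  Subgroup.closure (Set.range fun i : Fin N => (g ^ (i : ℕ))⁻¹ * a * g ^ (i : ℕ))

theorem orb_mem {G : Type*} [Group G] (a g : G) {N i : ℕ} (h : i < N) :
    (g ^ i)⁻¹ * a * g ^ i ∈ Orb a g N :=
  Subgroup.subset_closure ⟨⟨i, h⟩, rfl⟩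

theorem orb_mono {G : Type*} [Group G] (a g : G) {N M : ℕ} (h : N ≤ M) :
    Orb a g N ≤ Orb a g M := by
  unfold Orb
  rw [Subgroup.closure_le]
  rintro _ ⟨i, rfl⟩
  exact orb_mem a g (lt_of_lt_of_le i.2 h)

theorem orb_conj {G : Type*} [Group G] (a g : G) (N : ℕ) :
    ∀ x ∈ Orb a g N, g⁻¹ * x * g ∈ Orb a g (N + 1) := by
  intro x hx
  unfold Orb at hx
  induction hx using Subgroup.closure_induction with
  | mem x hx =>
    obtain ⟨i, rfl⟩ := hx
    have e : g⁻¹ * ((g ^ (i : ℕ))⁻¹ * a * g ^ (i : ℕ)) * g = (g ^ ((i : ℕ) + 1))⁻¹ * a * g ^ ((i : ℕ) + 1) := by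
      rw [pow_succ]; group
    simp only []
    rw [e]
    exact orb_mem a g (by omega)
  | one => simp
  | mul x y _ _ hx hy =>
    have e : g⁻¹ * (x * y) * g = (g⁻¹ * x * g) * (g⁻¹ * y * g) := by group
    rw [e]; exact mul_mem hx hy
  | inv x _ hx =>
    have e : g⁻¹ * x⁻¹ * g = (g⁻¹ * x * g)⁻¹ := by group
    rw [e]; exact inv_mem hx

/-- `F^k a ∈ Orb (k+1)` -/
theorem iter_mem_orb {G : Type*} [Group G] (a g : G) (k : ℕ) :
    (F g)^[k] a ∈ Orb a g (k + 1) := by
  induction k with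
  | zero =>
    have := orb_mem a g (N := 1) (i := 0) (by omega)
    simpa using this
  | succ k ih =>
    rw [Function.iterate_succ_apply']
    have e : F g ((F g)^[k] a) = ((F g)^[k] a)⁻¹ * (g⁻¹ * (F g)^[k] a * g) := by unfold F; group
    rw [e]
    exact mul_mem (inv_mem (orb_mono a g (by omega) ih)) (orb_conj a g _ _ ih)

/-- `a^(g^k) ∈ closure {F^i a : i ≤ k}` -/
theorem orb_le {G : Type*} [Group G] (a g : G) (k : ℕ) :
    (g ^ k)⁻¹ * a * g ^ k ∈ Subgroup.closure {y | ∃ i ≤ k, y = (F g)^[i] a} := by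
  have step : ∀ k, ∀ x ∈ Subgroup.closure {y | ∃ i ≤ k, y = (F g)^[i] a},
      g⁻¹ * x * g ∈ Subgroup.closure {y | ∃ i ≤ k + 1, y = (F g)^[i] a} := by
    intro k x hx
    induction hx using Subgroup.closure_induction with
    | mem x hx =>
      obtain ⟨i, hi, rfl⟩ := hx
      have e : g⁻¹ * (F g)^[i] a * g = (F g)^[i] a * (F g)^[i + 1] a := by
        rw [Function.iterate_succ_apply']; unfold F; group
      rw [e]
      exact mul_mem (Subgroup.subset_closure ⟨i, by omega, rfl⟩)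
        (Subgroup.subset_closure ⟨i + 1, by omega, rfl⟩)
    | one => simp
    | mul x y _ _ hx hy =>
      have e : g⁻¹ * (x * y) * g = (g⁻¹ * x * g) * (g⁻¹ * y * g) := by group
      rw [e]; exact mul_mem hx hy
    | inv x _ hx =>
      have e : g⁻¹ * x⁻¹ * g = (g⁻¹ * x * g)⁻¹ := by group
      rw [e]; exact inv_mem hx
  induction k with
  | zero => exact Subgroup.subset_closure ⟨0, le_rfl, by simp⟩
  | succ k ih =>
    have := step k _ ih
    have e : g⁻¹ * ((g ^ k)⁻¹ * a * g ^ k) * g = (g ^ (k + 1))⁻¹ * a * g ^ (k + 1) := by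
      rw [pow_succ]; group
    rwa [e] at this

/-- if `F^N a = 1` then `Orb a g N` is normalised by `g` and contains `a` -/
theorem orb_closed {G : Type*} [Group G] (a g : G) (N : ℕ) (h : (F g)^[N] a = 1) :
    a ∈ Orb a g N ∧ (∀ x ∈ Orb a g N, g⁻¹ * x * g ∈ Orb a g N) ∧
      (∀ x ∈ Orb a g N, g * x * g⁻¹ ∈ Orb a g N) := by
  -- the F-description
  have hF : ∀ k, (F g)^[k] a ∈ Orb a g N := by
    intro k
    rcases lt_or_ge k N with hk | hk
    · exact orb_mono a g hk (iter_mem_orb a g k)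
    · rw [iter_mono g a hk h]; exact one_mem _
  have hup : ∀ k, (g ^ k)⁻¹ * a * g ^ k ∈ Orb a g N := by
    intro k
    have h1 := orb_le a g k
    have h2 : Subgroup.closure {y | ∃ i ≤ k, y = (F g)^[i] a} ≤ Orb a g N := by
      rw [Subgroup.closure_le]
      rintro _ ⟨i, _, rfl⟩
      exact hF i
    exact h2 h1
  refine ⟨by simpa using hF 0, ?_, ?_⟩
  · intro x hx
    have h1 := orb_conj a g N x hx
    have h2 : Orb a g (N + 1) ≤ Orb a g N := by
      unfold Orb
      rw [Subgroup.closure_le]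
      rintro _ ⟨i, rfl⟩
      exact hup i
    exact h2 h1
  · -- conjugation by `g⁻¹`
    have hF' : ∀ j k, k + j = N → g * (F g)^[k] a * g⁻¹ ∈ Orb a g N := by
      intro j
      induction j with
      | zero =>
        intro k hk
        rw [show k = N by omega, h]
        simp
      | succ j ih =>
        intro k hk
        have h1 := ih (k + 1) (by omega)
        have e : g * (F g)^[k] a * g⁻¹ = (F g)^[k] a * (g * (F g)^[k + 1] a * g⁻¹)⁻¹ := by
          rw [Function.iterate_succ_apply']; unfold F; group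
        rw [e]
        exact mul_mem (hF k) (inv_mem h1)
    have hF'' : ∀ k, g * (F g)^[k] a * g⁻¹ ∈ Orb a g N := by
      intro k
      rcases le_or_gt k N with hk | hk
      · exact hF' (N - k) k (by omega)
      · rw [iter_mono g a hk.le h]; simp
    have hle : Orb a g N ≤ Subgroup.closure {y | ∃ i, y = (F g)^[i] a} := by
      unfold Orb
      rw [Subgroup.closure_le]
      rintro _ ⟨i, rfl⟩
      refine (Subgroup.closure_mono ?_) (orb_le a g i)
      rintro _ ⟨j, _, rfl⟩
      exact ⟨j, rfl⟩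
    intro x hx
    have hx' := hle hx
    clear hx
    induction hx' using Subgroup.closure_induction with
    | mem x hx => obtain ⟨i, rfl⟩ := hx; exact hF'' i
    | one => simp
    | mul x y _ _ hx hy =>
      have e : g * (x * y) * g⁻¹ = (g * x * g⁻¹) * (g * y * g⁻¹) := by group
      rw [e]; exact mul_mem hx hy
    | inv x _ hx =>
      have e : g * x⁻¹ * g⁻¹ = (g * x * g⁻¹)⁻¹ := by group
      rw [e]; exact inv_mem hx

end Pool.Agent.Helper351.RE
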