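import Mathlib
import Pool.Agent.Helper639.RO.All

set_option autoImplicit false

open scoped commutatorElement

namespace Pool.Agent.Helper351.RE

open Pool.Agent.Helper639
open Pool.Agent.Helper639.RO (RO stepCone IsCone St scheme cone_pow)

/-- (right-orderable)-by-nilpotent groups generated by `r` left `N`-Engel elements have bounded class -/
theorem ro_bound (N r m : ℕ) (hN : 1 ≤ N) :
    ∃ c : ℕ, ∀ (G : Type) [Group G] (a : Fin r → G),
    Subgroup.closure (Set.range a) = ⊤ →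
    (∀ i x, (fun z : G => z⁻¹ * (a i)⁻¹ * z * a i)^[N] x = 1) →
    RO (Subgroup.lowerCentralSeries (⊤ : Subgroup G) m) →
    Subgroup.lowerCentralSeries (⊤ : Subgroup G) c = ⊥ := by
  classical
  obtain ⟨c0, hc0⟩ := Pool.Agent.Helper28.BN.class_bound_tf N r hN
  obtain ⟨c, hcdef⟩ : ∃ c, c = max m c0 := ⟨_, rfl⟩
  have hcm : m ≤ c := hcdef ▸ le_max_left _ _
  have hcc : c0 ≤ c := hcdef ▸ le_max_right _ _
  refine ⟨c, ?_⟩
  intro G _ a hgen hE hRO
  by_contra hne
  obtain ⟨P0, hP1, hP2, hP3⟩ := hRO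
  have hanti : Subgroup.lowerCentralSeries (⊤ : Subgroup G) c ≤
      Subgroup.lowerCentralSeries (⊤ : Subgroup G) m := Subgroup.lowerCentralSeries_antitone _ hcm
  set γ := Subgroup.lowerCentralSeries (⊤ : Subgroup G) c with hγ
  have hfg := LI.lcs_fg a hgen N hE c
  rw [← hγ] at hfg
  have hγn : γ.Normal := by rw [hγ]; infer_instance
  have hfg' : (⊤ : Subgroup γ).FG := by
    have := (Group.fg_iff_subgroup_fg γ).2 hfg
    exact Group.fg_def.1 this
  have hcone : IsCone {x : γ | (⟨(x : G), hanti x.2⟩ :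
      Subgroup.lowerCentralSeries (⊤ : Subgroup G) m) ∈ P0} := by
    refine ⟨fun x hx y hy => hP1 _ hx _ hy, fun x => hP2 ⟨(x : G), hanti x.2⟩, ?_⟩
    intro hu
    apply hne
    rw [eq_bot_iff]
    intro x hx
    have h1 : (⟨x, hx⟩ : γ) ∈ {x : γ | (⟨(x : G), hanti x.2⟩ :
      Subgroup.lowerCentralSeries (⊤ : Subgroup G) m) ∈ P0} := by rw [hu]; trivial
    have h2 : (⟨x, hx⟩ : γ)⁻¹ ∈ {x : γ | (⟨(x : G), hanti x.2⟩ :
      Subgroup.lowerCentralSeries (⊤ : Subgroup G) m) ∈ P0} := by rw [hu]; trivial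
    rw [Subgroup.mem_bot]
    have h3 := hP3 ⟨x, hanti hx⟩ h1 h2
    exact congrArg Subtype.val h3
  set A : Set G := {x | ∃ (i : Fin r) (t : G), x = t⁻¹ * a i * t} with hA
  have hAgen : Subgroup.closure A = ⊤ := by
    rw [eq_top_iff, ← hgen]
    apply Subgroup.closure_mono
    rintro _ ⟨i, rfl⟩
    exact ⟨i, 1, by simp⟩
  have hAconj : ∀ x ∈ A, ∀ g, g * x * g⁻¹ ∈ A := by
    rintro _ ⟨i, t, rfl⟩ g
    exact ⟨i, t * g⁻¹, by group⟩
  have hAE : ∀ x ∈ A, ∀ y : G, (fun z : G => z⁻¹ * x⁻¹ * z * x)^[N] y = 1 := by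
    rintro _ ⟨i, t, rfl⟩ y
    exact Pool.Agent.Helper28.BO.iter_conj (a i) t N (hE i) y
  obtain ⟨P', hP', hcen⟩ := scheme γ stepCone hfg' A hAgen hAconj N hAE c le_rfl _ hcone
  set D : Subgroup G := Subgroup.lowerCentralSeries (⊤ : Subgroup G) (c + 1) with hD
  have hDn : D.Normal := by rw [hD]; infer_instance
  have hDP : ∀ x : γ, (x : G) ∈ D → x ∈ P' := by
    intro x hx
    have h1 : D ≤ (St hP').map γ.subtype := by
      rw [hD, Subgroup.lowerCentralSeries_succ, Subgroup.commutator_le]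
      intro p hp q _
      refine ⟨⟨⁅p, q⁆, ?_⟩, ?_, rfl⟩
      · rw [commutatorElement_def]
        have h2 := hγn.conj_mem _ (inv_mem hp) q
        have e : p * q * p⁻¹ * q⁻¹ = p * (q * p⁻¹ * q⁻¹) := by group
        rw [e]
        exact mul_mem hp h2
      · have h2 := hcen q (⟨p, hp⟩ : γ)⁻¹
        have e : ((⟨p, hp⟩ : γ)⁻¹)⁻¹ * MulAut.conjNormal q (⟨p, hp⟩ : γ)⁻¹ =
            ⟨⁅p, q⁆, by
              rw [commutatorElement_def]
              have h2 := hγn.conj_mem _ (inv_mem hp) q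
              have e : p * q * p⁻¹ * q⁻¹ = p * (q * p⁻¹ * q⁻¹) := by group
              rw [e]
              exact mul_mem hp h2⟩ := by
          apply Subtype.ext
          simp only [MulAut.conjNormal_apply, Subgroup.coe_mul, Subgroup.coe_inv,
            commutatorElement_def]
          group
        rw [e] at h2
        exact h2
    obtain ⟨y, hy, hyx⟩ := h1 hx
    have : y = x := Subtype.ext hyx
    rw [← this]; exact hy.1
  -- the quotient `G ⧸ D` is nilpotent
  have hgenq : Subgroup.closure (Set.range fun i => QuotientGroup.mk' D (a i)) = ⊤ := by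
    have e : (Set.range fun i => QuotientGroup.mk' D (a i)) =
        (QuotientGroup.mk' D) '' (Set.range a) := by
      rw [← Set.range_comp]; rfl
    rw [e, ← MonoidHom.map_closure, hgen]
    exact Subgroup.map_top_of_surjective _ (QuotientGroup.mk'_surjective _)
  have hEq := fun i x => Pool.Agent.Helper28.BN.engel_quot D (a i) N (hE i) x
  have hmap : ∀ j, Subgroup.lowerCentralSeries (⊤ : Subgroup (G ⧸ D)) j =
      (Subgroup.lowerCentralSeries (⊤ : Subgroup G) j).map (QuotientGroup.mk' D) := by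
    intro j
    rw [Subgroup.map_lowerCentralSeries, Subgroup.map_top_of_surjective _
      (QuotientGroup.mk'_surjective _)]
  have hnil : Group.IsNilpotent (G ⧸ D) := by
    rw [Subgroup.nilpotent_iff_lowerCentralSeries]
    refine ⟨c + 1, ?_⟩
    rw [hmap, ← hD, Subgroup.map_eq_bot_iff, QuotientGroup.ker_mk']
  -- the torsion subgroup
  obtain ⟨T, hTn, hT⟩ := Pool.Agent.Helper28.BN.pi_sub Set.univ (G ⧸ D)
  have hgenT : Subgroup.closure (Set.range fun i => QuotientGroup.mk' T (QuotientGroup.mk' D (a i))) =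
      ⊤ := by
    have e : (Set.range fun i => QuotientGroup.mk' T (QuotientGroup.mk' D (a i))) =
        (QuotientGroup.mk' T) '' (Set.range fun i => QuotientGroup.mk' D (a i)) := by
      rw [← Set.range_comp]; rfl
    rw [e, ← MonoidHom.map_closure, hgenq]
    exact Subgroup.map_top_of_surjective _ (QuotientGroup.mk'_surjective _)
  have hEqT := fun i x => Pool.Agent.Helper28.BN.engel_quot T (QuotientGroup.mk' D (a i)) N (hEq i) x
  have hb0 := hc0 ((G ⧸ D) ⧸ T) (fun i => QuotientGroup.mk' T (QuotientGroup.mk' D (a i))) hgenT hEqT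
    (Pool.Agent.Helper28.BN.noTor_quot _ _ T hT)
  have hb : Subgroup.lowerCentralSeries (⊤ : Subgroup ((G ⧸ D) ⧸ T)) c = ⊥ := by
    rw [eq_bot_iff, ← hb0]
    exact Subgroup.lowerCentralSeries_antitone _ hcc
  have hmapT : Subgroup.lowerCentralSeries (⊤ : Subgroup ((G ⧸ D) ⧸ T)) c =
      (Subgroup.lowerCentralSeries (⊤ : Subgroup (G ⧸ D)) c).map (QuotientGroup.mk' T) := by
    rw [Subgroup.map_lowerCentralSeries, Subgroup.map_top_of_surjective _
      (QuotientGroup.mk'_surjective _)]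
  rw [hmapT, Subgroup.map_eq_bot_iff, QuotientGroup.ker_mk', hmap] at hb
  apply hP'.2.2
  rw [Set.eq_univ_iff_forall]
  intro x
  have h1 : (QuotientGroup.mk' D (x : G)) ∈ T := hb ⟨x, x.2, rfl⟩
  obtain ⟨m', hm', hxm⟩ := (hT _).1 h1
  have h2 : ((x ^ m' : γ) : G) ∈ D := by
    rw [← QuotientGroup.eq_one_iff, Subgroup.coe_pow, QuotientGroup.mk_pow]
    exact hxm
  exact cone_pow hP' x m' hm'.1 (hDP _ h2)

end Pool.Agent.Helper351.RE
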