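import Mathlib

set_option autoImplicit false

namespace Pool.Agent.Helper351.RE.HU

open scoped commutatorElement

/-- `x ↦ x⁻¹ φ x` -/
def Fm {K : Type} [Group K] (φ : K →* K) (x : K) : K := x⁻¹ * φ x

theorem Fm_one {K : Type} [Group K] (φ : K →* K) : Fm φ 1 = 1 := by simp [Fm]

theorem Fm_iter_one {K : Type} [Group K] (φ : K →* K) (m : ℕ) : (Fm φ)^[m] 1 = 1 :=
  Function.iterate_fixed (Fm_one φ) m

theorem Fm_map {K L : Type} [Group K] [Group L] (φ : K →* K) (ψ : L →* L) (π : K →* L)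
    (h : ∀ x, π (φ x) = ψ (π x)) (m : ℕ) (x : K) :
    π ((Fm φ)^[m] x) = (Fm ψ)^[m] (π x) := by
  induction m generalizing x with
  | zero => rfl
  | succ m ih =>
    rw [Function.iterate_succ_apply, Function.iterate_succ_apply, ih]
    congr 1
    simp [Fm, h]

theorem phi_mem {K : Type} [Group K] (φ : K →* K) (i : ℕ) {x : K}
    (hx : x ∈ (⊤ : Subgroup K).lowerCentralSeries i) :
    φ x ∈ (⊤ : Subgroup K).lowerCentralSeries i := by
  have h := Subgroup.mem_map_of_mem φ hx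
  rw [Subgroup.map_lowerCentralSeries] at h
  exact Subgroup.lowerCentralSeries_mono i le_top h

theorem Fm_mem {K : Type} [Group K] (φ : K →* K) (i : ℕ) {x : K}
    (hx : x ∈ (⊤ : Subgroup K).lowerCentralSeries i) :
    Fm φ x ∈ (⊤ : Subgroup K).lowerCentralSeries i :=
  Subgroup.mul_mem _ (Subgroup.inv_mem _ hx) (phi_mem φ i hx)

theorem Fm_iter_mem {K : Type} [Group K] (φ : K →* K) (i : ℕ) (m : ℕ) {x : K}
    (hx : x ∈ (⊤ : Subgroup K).lowerCentralSeries i) :
    (Fm φ)^[m] x ∈ (⊤ : Subgroup K).lowerCentralSeries i := by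
  induction m generalizing x with
  | zero => exact hx
  | succ m ih =>
    rw [Function.iterate_succ_apply]
    exact ih (Fm_mem φ i hx)

theorem cen {K : Type} [Group K] {i : ℕ} (h : (⊤ : Subgroup K).lowerCentralSeries (i + 1) = ⊥)
    {z : K} (hz : z ∈ (⊤ : Subgroup K).lowerCentralSeries i) (k : K) : z * k = k * z := by
  have h1 : ⁅z, k⁆ ∈ (⊤ : Subgroup K).lowerCentralSeries (i + 1) := by
    rw [Subgroup.lowerCentralSeries_succ]
    exact Subgroup.commutator_mem_commutator hz (Subgroup.mem_top k)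
  rw [h, Subgroup.mem_bot] at h1
  exact commutatorElement_eq_one_iff_mul_comm.1 h1

theorem iter_mul {K : Type} [Group K] (φ : K →* K) {i : ℕ}
    (h : (⊤ : Subgroup K).lowerCentralSeries (i + 1) = ⊥) (m : ℕ) {z w : K}
    (hz : z ∈ (⊤ : Subgroup K).lowerCentralSeries i)
    (hw : w ∈ (⊤ : Subgroup K).lowerCentralSeries i) :
    (Fm φ)^[m] (z * w) = (Fm φ)^[m] z * (Fm φ)^[m] w := by
  induction m generalizing z w with
  | zero => rfl
  | succ m ih =>
    rw [Function.iterate_succ_apply, Function.iterate_succ_apply, Function.iterate_succ_apply,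
      ← ih (Fm_mem φ i hz) (Fm_mem φ i hw)]
    congr 1
    unfold Fm
    rw [map_mul, mul_inv_rev]
    have h1 := cen h (Fm_mem φ i hz) w⁻¹
    unfold Fm at h1
    calc w⁻¹ * z⁻¹ * (φ z * φ w) = (w⁻¹ * (z⁻¹ * φ z)) * φ w := by group
      _ = (z⁻¹ * φ z * w⁻¹) * φ w := by rw [h1]
      _ = z⁻¹ * φ z * (w⁻¹ * φ w) := by group

/-- elements of the last term killed by `m` steps -/
def Q {K : Type} [Group K] (φ : K →* K) (i : ℕ)
    (h : (⊤ : Subgroup K).lowerCentralSeries (i + 1) = ⊥) (m : ℕ) : Subgroup K where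
  carrier := {z | z ∈ (⊤ : Subgroup K).lowerCentralSeries i ∧ (Fm φ)^[m] z = 1}
  one_mem' := ⟨Subgroup.one_mem _, Fm_iter_one φ m⟩
  mul_mem' := by
    rintro a b ⟨ha, ha'⟩ ⟨hb, hb'⟩
    exact ⟨Subgroup.mul_mem _ ha hb, by rw [iter_mul φ h m ha hb, ha', hb', one_mul]⟩
  inv_mem' := by
    rintro a ⟨ha, ha'⟩
    refine ⟨Subgroup.inv_mem _ ha, ?_⟩
    have h1 := iter_mul φ h m (Subgroup.inv_mem _ ha) ha
    rw [inv_mul_cancel, Fm_iter_one, ha', mul_one] at h1
    exact h1.symm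

theorem mem_Q {K : Type} [Group K] (φ : K →* K) (i : ℕ)
    (h : (⊤ : Subgroup K).lowerCentralSeries (i + 1) = ⊥) (m : ℕ) (z : K) :
    z ∈ Q φ i h m ↔ z ∈ (⊤ : Subgroup K).lowerCentralSeries i ∧ (Fm φ)^[m] z = 1 := Iff.rfl

theorem com_mem {K : Type} [Group K] {i : ℕ} {a : K}
    (ha : a ∈ (⊤ : Subgroup K).lowerCentralSeries i) (k : K) :
    ⁅a, k⁆ ∈ (⊤ : Subgroup K).lowerCentralSeries (i + 1) := by
  rw [Subgroup.lowerCentralSeries_succ]
  exact Subgroup.commutator_mem_commutator ha (Subgroup.mem_top k)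

theorem L1 {K : Type} [Group K] {i : ℕ}
    (h : (⊤ : Subgroup K).lowerCentralSeries (i + 1 + 1) = ⊥) {a b : K}
    (hb : b ∈ (⊤ : Subgroup K).lowerCentralSeries i) (k : K) :
    ⁅a * b, k⁆ = ⁅a, k⁆ * ⁅b, k⁆ := by
  have h1 := cen h (com_mem hb k) (⁅a, k⁆)
  have h2 := cen h (com_mem hb k) a
  calc ⁅a * b, k⁆ = a * ⁅b, k⁆ * a⁻¹ * ⁅a, k⁆ := by
        simp only [commutatorElement_def]; group
    _ = ⁅b, k⁆ * a * a⁻¹ * ⁅a, k⁆ := by rw [h2]
    _ = ⁅b, k⁆ * ⁅a, k⁆ := by group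
    _ = ⁅a, k⁆ * ⁅b, k⁆ := h1

theorem L2 {K : Type} [Group K] {i : ℕ}
    (h : (⊤ : Subgroup K).lowerCentralSeries (i + 1 + 1) = ⊥) {a : K}
    (ha : a ∈ (⊤ : Subgroup K).lowerCentralSeries i) (k l : K) :
    ⁅a, k * l⁆ = ⁅a, k⁆ * ⁅a, l⁆ := by
  have h2 := cen h (com_mem ha l) k
  calc ⁅a, k * l⁆ = ⁅a, k⁆ * (k * ⁅a, l⁆) * k⁻¹ := by
        simp only [commutatorElement_def]; group
    _ = ⁅a, k⁆ * (⁅a, l⁆ * k) * k⁻¹ := by rw [h2]
    _ = ⁅a, k⁆ * ⁅a, l⁆ := by group

theorem F_com {K : Type} [Group K] (φ : K →* K) {i : ℕ}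
    (h : (⊤ : Subgroup K).lowerCentralSeries (i + 1 + 1) = ⊥) {a : K}
    (ha : a ∈ (⊤ : Subgroup K).lowerCentralSeries i) (k : K) :
    Fm φ ⁅a, k⁆ = ⁅a, Fm φ k⁆ * (⁅Fm φ a, k⁆ * ⁅Fm φ a, Fm φ k⁆) := by
  have h1 : φ a = a * Fm φ a := by simp [Fm]
  have h2 : φ k = k * Fm φ k := by simp [Fm]
  have h3 : φ ⁅a, k⁆ = ⁅a, k⁆ * ⁅a, Fm φ k⁆ * (⁅Fm φ a, k⁆ * ⁅Fm φ a, Fm φ k⁆) := by
    rw [map_commutatorElement, h1, h2, L1 h (Fm_mem φ i ha), L2 h ha, L2 h (Fm_mem φ i ha)]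
  show ⁅a, k⁆⁻¹ * φ ⁅a, k⁆ = _
  rw [h3]
  group

theorem claim {K : Type} [Group K] (φ : K →* K) {i : ℕ}
    (h : (⊤ : Subgroup K).lowerCentralSeries (i + 1 + 1) = ⊥) (m : ℕ) :
    ∀ p q : ℕ, p + q ≤ m → ∀ a ∈ (⊤ : Subgroup K).lowerCentralSeries i, ∀ k : K,
      (Fm φ)^[p] a ∈ (⊤ : Subgroup K).lowerCentralSeries (i + 1) → (Fm φ)^[q] k = 1 →
      ⁅a, k⁆ ∈ Q φ (i + 1) h m := by
  have hp0 : ∀ (m : ℕ), ∀ a ∈ (⊤ : Subgroup K).lowerCentralSeries (i + 1), ∀ k : K,
      ⁅a, k⁆ ∈ Q φ (i + 1) h m := by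
    intro m a ha k
    have h1 : ⁅a, k⁆ = 1 := commutatorElement_eq_one_iff_mul_comm.2 (cen h ha k)
    rw [h1]
    exact Subgroup.one_mem _
  induction m with
  | zero =>
    intro p q hpq a ha k hp hq
    obtain rfl : p = 0 := by omega
    exact hp0 0 a hp k
  | succ m ih =>
    intro p q hpq a ha k hp hq
    cases p with
    | zero => exact hp0 _ a hp k
    | succ p =>
      cases q with
      | zero =>
        have hk : k = 1 := hq
        rw [hk, commutatorElement_one_right]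
        exact Subgroup.one_mem _
      | succ q =>
        have e1 := ih (p + 1) q (by omega) a ha (Fm φ k) hp hq
        have e2 := ih p (q + 1) (by omega) (Fm φ a) (Fm_mem φ i ha) k hp hq
        have e3 := ih p q (by omega) (Fm φ a) (Fm_mem φ i ha) (Fm φ k) hp hq
        have e4 := Subgroup.mul_mem _ e1 (Subgroup.mul_mem _ e2 e3)
        rw [← F_com φ h ha k] at e4
        refine ⟨com_mem ha k, ?_⟩
        rw [Function.iterate_succ_apply]
        exact e4.2

/-- the map induced on the quotient by a term of the lower central series -/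
theorem quo {K : Type} [Group K] (φ : K →* K) (j : ℕ) :
    ∃ (L : Type) (_ : Group L) (ψ : L →* L) (π : K →* L), Function.Surjective π ∧
      (∀ x, π (φ x) = ψ (π x)) ∧ (∀ x, π x = 1 ↔ x ∈ (⊤ : Subgroup K).lowerCentralSeries j) ∧
      (⊤ : Subgroup L).lowerCentralSeries j = ⊥ ∧
      (∀ i, ∀ x ∈ (⊤ : Subgroup K).lowerCentralSeries i,
        π x ∈ (⊤ : Subgroup L).lowerCentralSeries i) := by
  set N := (⊤ : Subgroup K).lowerCentralSeries j with hN
  haveI : N.Normal := by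
    rw [hN]
    infer_instance
  have hsur : Function.Surjective (QuotientGroup.mk' N) := QuotientGroup.mk'_surjective N
  have hmap : ∀ i, ((⊤ : Subgroup K).lowerCentralSeries i).map (QuotientGroup.mk' N) =
      (⊤ : Subgroup (K ⧸ N)).lowerCentralSeries i := by
    intro i
    rw [Subgroup.map_lowerCentralSeries, Subgroup.map_top_of_surjective _ hsur]
  refine ⟨K ⧸ N, inferInstance, QuotientGroup.map N N φ (fun x hx => phi_mem φ j hx),
    QuotientGroup.mk' N, hsur, fun x => rfl, ?_, ?_, ?_⟩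
  · intro x
    exact QuotientGroup.eq_one_iff x
  · rw [← hmap j, Subgroup.map_eq_bot_iff, QuotientGroup.ker_mk']
  · intro i x hx
    rw [← hmap i]
    exact Subgroup.mem_map_of_mem _ hx

theorem closure_image {K L : Type} [Group K] [Group L] (π : K →* L) (hπ : Function.Surjective π)
    (S : Set K) (hS : Subgroup.closure S = ⊤) : Subgroup.closure (π '' S) = ⊤ := by
  rw [← MonoidHom.map_closure, hS, Subgroup.map_top_of_surjective _ hπ]

theorem L (N : ℕ) : ∀ (i : ℕ) (K : Type) [Group K] (φ : K →* K) (S : Set K),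
    Subgroup.closure S = ⊤ → (∀ s ∈ S, (Fm φ)^[N] s = 1) →
    (⊤ : Subgroup K).lowerCentralSeries (i + 1) = ⊥ →
    ∀ x ∈ (⊤ : Subgroup K).lowerCentralSeries i, (Fm φ)^[(i + 1) * N] x = 1 := by
  intro i
  induction i with
  | zero =>
    intro K _ φ S hS hF h x hx
    have h1 : Subgroup.closure S ≤ Q φ 0 h N := by
      rw [Subgroup.closure_le]
      intro s hs
      exact ⟨Subgroup.mem_top s, hF s hs⟩
    rw [hS] at h1
    rw [Nat.zero_add, Nat.one_mul]
    exact (h1 (Subgroup.mem_top x)).2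
  | succ i ih =>
    intro K _ φ S hS hF h x hx
    obtain ⟨L, _, ψ, π, hπ, hπφ, hker, hbot, hmem⟩ := quo φ (i + 1)
    have hstep : ∀ a ∈ (⊤ : Subgroup K).lowerCentralSeries i,
        (Fm φ)^[(i + 1) * N] a ∈ (⊤ : Subgroup K).lowerCentralSeries (i + 1) := by
      intro a ha
      rw [← hker, Fm_map φ ψ π hπφ]
      refine ih L ψ (π '' S) (closure_image π hπ S hS) ?_ hbot _ (hmem i a ha)
      rintro _ ⟨s, hs, rfl⟩
      rw [← Fm_map φ ψ π hπφ, hF s hs, map_one]
    have hQ : (⊤ : Subgroup K).lowerCentralSeries (i + 1) ≤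
        Q φ (i + 1) h ((i + 1) * N + N) := by
      rw [Subgroup.lowerCentralSeries_succ, Subgroup.commutator_le]
      intro a ha k _
      have hk : k ∈ Subgroup.closure S := by
        rw [hS]
        exact Subgroup.mem_top k
      induction hk using Subgroup.closure_induction with
      | mem s hs => exact claim φ h _ _ _ le_rfl a ha s (hstep a ha) (hF s hs)
      | one =>
        rw [commutatorElement_one_right]
        exact Subgroup.one_mem _
      | mul k l _ _ hk hl =>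
        rw [L2 h ha]
        exact Subgroup.mul_mem _ (hk trivial) (hl trivial)
      | inv k _ hk =>
        have h1 := L2 h ha k⁻¹ k
        rw [inv_mul_cancel, commutatorElement_one_right] at h1
        have h2 : ⁅a, k⁻¹⁆ = ⁅a, k⁆⁻¹ := eq_inv_of_mul_eq_one_left h1.symm
        rw [h2]
        exact Subgroup.inv_mem _ (hk trivial)
    have h3 := (hQ hx).2
    have h4 : (i + 1 + 1) * N = (i + 1) * N + N := by ring
    rw [h4]
    exact h3

theorem core (N : ℕ) : ∀ c : ℕ, ∃ M : ℕ, ∀ (K : Type) [Group K] (φ : K →* K) (S : Set K),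
    Subgroup.closure S = ⊤ → (∀ s ∈ S, (Fm φ)^[N] s = 1) →
    (⊤ : Subgroup K).lowerCentralSeries c = ⊥ → ∀ x, (Fm φ)^[M] x = 1 := by
  intro c
  induction c with
  | zero =>
    refine ⟨0, ?_⟩
    intro K _ φ S hS hF h x
    have h1 : x ∈ (⊤ : Subgroup K).lowerCentralSeries 0 := Subgroup.mem_top x
    rw [h, Subgroup.mem_bot] at h1
    exact h1
  | succ c ih =>
    obtain ⟨M, hM⟩ := ih
    refine ⟨(c + 1) * N + M, ?_⟩
    intro K _ φ S hS hF h x
    obtain ⟨L, _, ψ, π, hπ, hπφ, hker, hbot, hmem⟩ := quo φ c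
    have hstep : (Fm φ)^[M] x ∈ (⊤ : Subgroup K).lowerCentralSeries c := by
      rw [← hker, Fm_map φ ψ π hπφ]
      refine hM L ψ (π '' S) (closure_image π hπ S hS) ?_ hbot _
      rintro _ ⟨s, hs, rfl⟩
      rw [← Fm_map φ ψ π hπφ, hF s hs, map_one]
    rw [Function.iterate_add_apply]
    exact Pool.Agent.Helper351.RE.HU.L N c K φ S hS hF h _ hstep

end Pool.Agent.Helper351.RE.HU


namespace Pool.Agent.Helper351.RE

/-- A nilpotent subgroup `K` normalised by `g`, generated by a set `S` of elements killed by `N` steps of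
`x ↦ [x, g]`: every element of `K` is killed by `M` steps, where `M` depends on `c` and `N` only. -/
theorem hall_unip (c N : ℕ) : ∃ M : ℕ, ∀ (G : Type) [Group G] (K : Subgroup G) (g : G) (S : Set G),
    Subgroup.closure S = K → K.lowerCentralSeries c = ⊥ →
    (∀ x ∈ K, g⁻¹ * x * g ∈ K) → (∀ x ∈ K, g * x * g⁻¹ ∈ K) →
    (∀ s ∈ S, (fun x : G => x⁻¹ * g⁻¹ * x * g)^[N] s = 1) →
    ∀ x ∈ K, (fun x : G => x⁻¹ * g⁻¹ * x * g)^[M] x = 1 := by
  obtain ⟨M, hM⟩ := Pool.Agent.Helper351.RE.HU.core N c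
  refine ⟨M, ?_⟩
  intro G _ K g S hS hc h1 h2 hF x hx
  subst hS
  let φ : Subgroup.closure S →* Subgroup.closure S := MonoidHom.mk'
    (fun y => ⟨g⁻¹ * y.1 * g, h1 y.1 y.2⟩) (by
      intro a b
      apply Subtype.ext
      show g⁻¹ * (a.1 * b.1) * g = (g⁻¹ * a.1 * g) * (g⁻¹ * b.1 * g)
      group)
  have hiter : ∀ (m : ℕ) (y : Subgroup.closure S),
      (fun x : G => x⁻¹ * g⁻¹ * x * g)^[m] y.1 = ((Pool.Agent.Helper351.RE.HU.Fm φ)^[m] y).1 := by
    intro m
    induction m with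
    | zero => intro y; rfl
    | succ m ih =>
      intro y
      rw [Function.iterate_succ_apply, Function.iterate_succ_apply, ← ih]
      congr 1
      show y.1⁻¹ * g⁻¹ * y.1 * g = y.1⁻¹ * (g⁻¹ * y.1 * g)
      group
  have hbot : (⊤ : Subgroup (Subgroup.closure S)).lowerCentralSeries c = ⊥ := by
    rw [← Subgroup.top_subtype_lowerCentralSeries] at hc
    have h3 := (Subgroup.map_eq_bot_iff _).1 hc
    rw [Subgroup.ker_subtype] at h3
    exact le_bot_iff.1 h3
  have h4 := hM (Subgroup.closure S) φ (((↑) : Subgroup.closure S → G) ⁻¹' S)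
    Subgroup.closure_closure_coe_preimage (by
      intro s hs
      apply Subtype.ext
      rw [← hiter]
      exact hF s.1 hs) hbot ⟨x, hx⟩
  have h5 := hiter M ⟨x, hx⟩
  rw [h4] at h5
  exact h5

end Pool.Agent.Helper351.RE
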