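import Mathlib
import Pool.Agent.Helper351.RE.A1
import Pool.Agent.Helper351.RE.J1
import Pool.Agent.Helper351.RE.B1

set_option autoImplicit false

namespace Pool.Agent.Helper351.RE

open Pool.Agent.Helper639.RO (RO)
open Pool.Agent.Helper28.BO (iter_add iter_conj iter_mem)

/-- for all `N, r` there is `c` such that subgroups generated by `r` left `N`-Engel elements of `G` are
nilpotent of class at most `c` -/
def BC (G : Type) [Group G] : Prop := ∀ N r : ℕ, ∃ c : ℕ, ∀ b : Fin r → G,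
  (∀ i x, (fun z : G => z⁻¹ * (b i)⁻¹ * z * b i)^[N] x = 1) →
    (Subgroup.closure (Set.range b)).lowerCentralSeries c = ⊥

theorem left_main (G : Type) [Group G] (hBC : BC G) :
    ∃ H : Subgroup G, ∀ g : G,
      g ∈ H ↔ ∃ n : ℕ, ∀ x : G, (fun y : G => y⁻¹ * g⁻¹ * y * g)^[n] x = 1 := by
  refine ⟨{ carrier := {g | ∃ n : ℕ, ∀ x : G, (fun y : G => y⁻¹ * g⁻¹ * y * g)^[n] x = 1}
            mul_mem' := ?_, one_mem' := ?_, inv_mem' := ?_ }, fun g => Iff.rfl⟩
  · rintro g h ⟨n, hg⟩ ⟨m, hh⟩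
    obtain ⟨c, hc⟩ := hBC (max n m + 1) 4
    refine ⟨c + 1, fun x => ?_⟩
    let b : Fin 4 → G := ![g, h, x⁻¹ * g * x, x⁻¹ * h * x]
    have hg' : ∀ x, (fun z : G => z⁻¹ * g⁻¹ * z * g)^[max n m + 1] x = 1 := fun x =>
      iter_add g n _ (by omega) x (hg x)
    have hh' : ∀ x, (fun z : G => z⁻¹ * h⁻¹ * z * h)^[max n m + 1] x = 1 := fun x =>
      iter_add h m _ (by omega) x (hh x)
    have hb := hc b (by
      intro i x'
      fin_cases i
      · exact hg' x'
      · exact hh' x'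
      · exact iter_conj g x _ hg' x'
      · exact iter_conj h x _ hh' x')
    obtain ⟨K, hK⟩ : ∃ K : Subgroup G, K = Subgroup.closure (Set.range b) := ⟨_, rfl⟩
    rw [← hK] at hb
    have h0 : g ∈ K := hK ▸ Subgroup.subset_closure ⟨0, rfl⟩
    have h1 : h ∈ K := hK ▸ Subgroup.subset_closure ⟨1, rfl⟩
    have h2 : x⁻¹ * g * x ∈ K := hK ▸ Subgroup.subset_closure ⟨2, rfl⟩
    have h3 : x⁻¹ * h * x ∈ K := hK ▸ Subgroup.subset_closure ⟨3, rfl⟩
    rw [Function.iterate_succ_apply]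
    have h4 : x⁻¹ * (g * h)⁻¹ * x * (g * h) ∈ K := by
      have e : x⁻¹ * (g * h)⁻¹ * x * (g * h) = (x⁻¹ * h * x)⁻¹ * (x⁻¹ * g * x)⁻¹ * (g * h) := by group
      rw [e]
      exact K.mul_mem (K.mul_mem (K.inv_mem h3) (K.inv_mem h2)) (K.mul_mem h0 h1)
    have h5 := iter_mem K (g * h) (K.mul_mem h0 h1) _ h4 c
    rw [hb, Subgroup.mem_bot] at h5
    exact h5
  · exact ⟨1, fun x => by simp⟩
  · rintro g ⟨n, hg⟩
    obtain ⟨c, hc⟩ := hBC (n + 1) 2
    refine ⟨c + 1, fun x => ?_⟩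
    let b : Fin 2 → G := ![g, x⁻¹ * g * x]
    have hg' : ∀ x, (fun z : G => z⁻¹ * g⁻¹ * z * g)^[n + 1] x = 1 := fun x =>
      iter_add g n _ (by omega) x (hg x)
    have hb := hc b (by
      intro i x'
      fin_cases i
      · exact hg' x'
      · exact iter_conj g x _ hg' x')
    obtain ⟨K, hK⟩ : ∃ K : Subgroup G, K = Subgroup.closure (Set.range b) := ⟨_, rfl⟩
    rw [← hK] at hb
    have h0 : g ∈ K := hK ▸ Subgroup.subset_closure ⟨0, rfl⟩
    have h2 : x⁻¹ * g * x ∈ K := hK ▸ Subgroup.subset_closure ⟨1, rfl⟩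
    rw [Function.iterate_succ_apply]
    have h4 : x⁻¹ * g⁻¹⁻¹ * x * g⁻¹ ∈ K := by
      rw [inv_inv]
      exact K.mul_mem h2 (K.inv_mem h0)
    have h5 := iter_mem K g⁻¹ (K.inv_mem h0) _ h4 c
    rw [hb, Subgroup.mem_bot] at h5
    exact h5

/-- the elements of the subgroup generated by two right `N`-Engel
elements are right `M`-Engel, with `M` depending on `N` only -/
theorem right_bound (G : Type) [Group G] (hBC : BC G) (N : ℕ) : ∃ M : ℕ,
    ∀ a b : G, (∀ g, (F g)^[N] a = 1) → (∀ g, (F g)^[N] b = 1) →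
    ∀ x ∈ Subgroup.closure ({a, b} : Set G), ∀ g, (F g)^[M] x = 1 := by
  obtain ⟨c, hc⟩ := hBC (N + 1) (N + N)
  obtain ⟨M, hM⟩ := hall_unip c N
  refine ⟨M, ?_⟩
  intro a b ha hb x hx g
  let u : Fin N → G := fun i => (g ^ (i : ℕ))⁻¹ * a * g ^ (i : ℕ)
  let v : Fin N → G := fun i => (g ^ (i : ℕ))⁻¹ * b * g ^ (i : ℕ)
  let w : Fin (N + N) → G := fun i => (Fin.append u v i)⁻¹
  have h2 : Set.range w = (Set.range (Fin.append u v))⁻¹ := by
    ext y
    simp only [Set.mem_range, Set.mem_inv, w]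
    constructor
    · rintro ⟨i, rfl⟩; exact ⟨i, by rw [inv_inv]⟩
    · rintro ⟨i, hi⟩; exact ⟨i, by rw [hi, inv_inv]⟩
  have hcl : Subgroup.closure (Set.range w) = Orb a g N ⊔ Orb b g N := by
    have h1 : Subgroup.closure (Set.range w) = Subgroup.closure (Set.range (Fin.append u v)) := by
      rw [h2, Subgroup.closure_inv]
    have h3 : Set.range (Fin.append u v) = Set.range u ∪ Set.range v := by
      ext y
      simp only [Set.mem_range, Set.mem_union]
      constructor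
      · rintro ⟨i, rfl⟩
        refine Fin.addCases (fun j => ?_) (fun j => ?_) i
        · left; exact ⟨j, by rw [Fin.append_left]⟩
        · right; exact ⟨j, by rw [Fin.append_right]⟩
      · rintro (⟨j, rfl⟩ | ⟨j, rfl⟩)
        · exact ⟨Fin.castAdd N j, by rw [Fin.append_left]⟩
        · exact ⟨Fin.natAdd N j, by rw [Fin.append_right]⟩
    rw [h1, h3, Subgroup.closure_union]
    rfl
  have hE : ∀ i y, (fun z : G => z⁻¹ * (w i)⁻¹ * z * w i)^[N + 1] y = 1 := by
    intro i y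
    have key : ∀ t : G, (∀ k, (F k)^[N] t = 1) → ∀ j : ℕ, ∀ k,
        (F k)^[N] ((g ^ j)⁻¹ * t * g ^ j) = 1 := by
      intro t ht j k
      rw [iter_F_conj, ht]; group
    have h1 : ∀ k, (F k)^[N] (Fin.append u v i) = 1 := by
      refine Fin.addCases (fun j => ?_) (fun j => ?_) i
      · rw [Fin.append_left]; exact key a ha _
      · rw [Fin.append_right]; exact key b hb _
    exact heineken (Fin.append u v i) N h1 y
  have hnil := hc w hE
  obtain ⟨ha1, ha2, ha3⟩ := orb_closed a g N (ha g)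
  obtain ⟨hb1, hb2, hb3⟩ := orb_closed b g N (hb g)
  obtain ⟨K, hK⟩ : ∃ K : Subgroup G, K = Orb a g N ⊔ Orb b g N := ⟨_, rfl⟩
  rw [hcl, ← hK] at hnil
  have hconj : ∀ t : G, (∀ y ∈ Orb a g N, t⁻¹ * y * t ∈ Orb a g N) →
      (∀ y ∈ Orb b g N, t⁻¹ * y * t ∈ Orb b g N) → ∀ y ∈ K, t⁻¹ * y * t ∈ K := by
    intro t h1 h2 y hy
    have h3 : K ≤ K.comap (MulAut.conj t⁻¹).toMonoidHom := by
      conv_lhs => rw [hK]
      rw [sup_le_iff]
      constructor
      · intro z hz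
        show (MulAut.conj t⁻¹) z ∈ K
        rw [MulAut.conj_apply, inv_inv, hK]
        exact (le_sup_left : Orb a g N ≤ Orb a g N ⊔ Orb b g N) (h1 z hz)
      · intro z hz
        show (MulAut.conj t⁻¹) z ∈ K
        rw [MulAut.conj_apply, inv_inv, hK]
        exact (le_sup_right : Orb b g N ≤ Orb a g N ⊔ Orb b g N) (h2 z hz)
    have h4 : (MulAut.conj t⁻¹) y ∈ K := h3 hy
    rwa [MulAut.conj_apply, inv_inv] at h4
  have hg1 : ∀ y ∈ K, g⁻¹ * y * g ∈ K := hconj g ha2 hb2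
  have hg2 : ∀ y ∈ K, g * y * g⁻¹ ∈ K := by
    have := hconj g⁻¹ (by simpa only [inv_inv] using ha3) (by simpa only [inv_inv] using hb3)
    simpa only [inv_inv] using this
  have hgen : Subgroup.closure (Set.range (Fin.append u v)) = K := by
    rw [hK, ← hcl, h2, Subgroup.closure_inv]
  have hS : ∀ s ∈ Set.range (Fin.append u v), (fun x : G => x⁻¹ * g⁻¹ * x * g)^[N] s = 1 := by
    have key : ∀ t : G, (∀ k, (F k)^[N] t = 1) → ∀ j : ℕ,
        (F g)^[N] ((g ^ j)⁻¹ * t * g ^ j) = 1 := by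
      intro t ht j
      rw [iter_F_conj, ht]; group
    rintro _ ⟨i, rfl⟩
    refine Fin.addCases (fun j => ?_) (fun j => ?_) i
    · rw [Fin.append_left]; exact key a ha _
    · rw [Fin.append_right]; exact key b hb _
  have hxK : x ∈ K := by
    have h1 : Subgroup.closure ({a, b} : Set G) ≤ K := by
      rw [Subgroup.closure_le]
      rintro y (rfl | rfl)
      · rw [hK]; exact (le_sup_left : Orb y g N ≤ Orb y g N ⊔ Orb b g N) ha1
      · rw [hK]; exact (le_sup_right : Orb y g N ≤ Orb a g N ⊔ Orb y g N) hb1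
    exact h1 hx
  exact hM G K g _ hgen hnil hg1 hg2 hS x hxK

/-- the bounded right Engel elements form a subgroup -/
theorem right_main (G : Type) [Group G] (hBC : BC G) :
    ∃ H : Subgroup G, ∀ a : G, a ∈ H ↔
      ∃ n : ℕ, ∀ g : G, (fun x : G => x⁻¹ * g⁻¹ * x * g)^[n] a = 1 := by
  refine ⟨{ carrier := {a | ∃ n : ℕ, ∀ g : G, (F g)^[n] a = 1}
            mul_mem' := ?_, one_mem' := ?_, inv_mem' := ?_ }, fun a => Iff.rfl⟩
  · rintro a b ⟨n, ha⟩ ⟨m, hb⟩
    obtain ⟨M, hM⟩ := right_bound G hBC (max n m)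
    refine ⟨M, fun g => hM a b (fun g => iter_mono g a (le_max_left n m) (ha g))
      (fun g => iter_mono g b (le_max_right n m) (hb g)) (a * b) ?_ g⟩
    exact mul_mem (Subgroup.subset_closure (Set.mem_insert a {b}))
      (Subgroup.subset_closure (Set.mem_insert_of_mem a rfl))
  · exact ⟨0, fun g => rfl⟩
  · rintro a ⟨n, ha⟩
    obtain ⟨M, hM⟩ := right_bound G hBC n
    exact ⟨M, fun g => hM a a ha ha a⁻¹
      (inv_mem (Subgroup.subset_closure (Set.mem_insert a {a}))) g⟩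

end Pool.Agent.Helper351.RE
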