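import Mathlib
import Pool.Agent.Helper351.RE.B2

set_option autoImplicit false

namespace Pool.Agent.Helper351.RE

open Pool.Agent.Helper639.RO (RO)
open Pool.Agent.Helper28.BO (iter_add iter_conj iter_mem)

/-- bounded abelian-by-nilpotent case -/
def AbBound : Prop := ∀ N r m : ℕ, ∃ c : ℕ, ∀ (H : Type) [Group H] (a : Fin r → H),
    Subgroup.closure (Set.range a) = ⊤ →
    (∀ i (x : H), (fun z : H => z⁻¹ * (a i)⁻¹ * z * a i)^[N] x = 1) →
    (∀ x ∈ Subgroup.lowerCentralSeries (⊤ : Subgroup H) m,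
      ∀ y ∈ Subgroup.lowerCentralSeries (⊤ : Subgroup H) m, x * y = y * x) →
    Subgroup.lowerCentralSeries (⊤ : Subgroup H) c = ⊥

/-- bounded finite-by-nilpotent case -/
def FinBound : Prop := ∀ (N r m f : ℕ) (H : Type) [Group H] (a : Fin r → H),
    Subgroup.closure (Set.range a) = ⊤ →
    (∀ i (x : H), (fun z : H => z⁻¹ * (a i)⁻¹ * z * a i)^[N] x = 1) →
    ∀ A : Subgroup H, Finite A → Nat.card A ≤ f →
    Subgroup.lowerCentralSeries (⊤ : Subgroup H) m ≤ A →
    Subgroup.lowerCentralSeries (⊤ : Subgroup H) (m + f) = ⊥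

theorem RO_of_order (A : Type) [Group A]
    (h : ∃ _ : LinearOrder A, ∀ a b c : A, a ≤ b → a * c ≤ b * c) : RO A := by
  obtain ⟨lo, hlo⟩ := h
  refine ⟨{x | 1 ≤ x}, ?_, ?_, ?_⟩
  · intro x hx y hy
    have h1 : 1 * y ≤ x * y := hlo _ _ y hx
    rw [one_mul] at h1
    exact le_trans hy h1
  · intro x
    rcases le_total 1 x with h | h
    · exact Or.inl h
    · right
      have h1 : x * x⁻¹ ≤ 1 * x⁻¹ := hlo _ _ x⁻¹ h
      rwa [mul_inv_cancel, one_mul] at h1
  · intro x hx hx'
    have h1 : 1 * x ≤ x⁻¹ * x := hlo _ _ x hx'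
    rw [one_mul, inv_mul_cancel] at h1
    exact le_antisymm h1 hx

theorem RO_inj {A B : Type} [Group A] [Group B] (f : A →* B) (hf : Function.Injective f)
    (h : RO B) : RO A := by
  obtain ⟨P, h1, h2, h3⟩ := h
  refine ⟨{x | f x ∈ P}, ?_, ?_, ?_⟩
  · intro x hx y hy
    show f (x * y) ∈ P
    rw [map_mul]; exact h1 _ hx _ hy
  · intro x
    rcases h2 (f x) with h | h
    · exact Or.inl h
    · right
      show f x⁻¹ ∈ P
      rw [map_inv]; exact h
  · intro x hx hx'
    have h4 : f x⁻¹ ∈ P := hx'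
    rw [map_inv] at h4
    have h5 := h3 _ hx h4
    exact hf (by rw [h5, map_one])

theorem bc_step (hab : AbBound) (hfin : FinBound) (G : Type) [Group G] (A : Subgroup G)
    [A.Normal] (hA : (∀ x ∈ A, ∀ y ∈ A, x * y = y * x) ∨ Finite A ∨ RO A)
    (hQ : BC (G ⧸ A)) : BC G := by
  intro N r
  obtain ⟨m, hm⟩ := hQ (N + 1) r
  -- the bound
  have hbound : ∃ c : ℕ, ∀ (K : Subgroup G) (a : Fin r → K), Subgroup.closure (Set.range a) = ⊤ →
      (∀ i (x : K), (fun z : K => z⁻¹ * (a i)⁻¹ * z * a i)^[N + 1] x = 1) →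
      (∀ x : K, x ∈ Subgroup.lowerCentralSeries (⊤ : Subgroup K) m → (x : G) ∈ A) →
      Subgroup.lowerCentralSeries (⊤ : Subgroup K) c = ⊥ := by
    rcases hA with hA | hA | hA
    · obtain ⟨c, hc⟩ := hab (N + 1) r m
      refine ⟨c, fun K a h1 h2 h3 => hc K a h1 h2 ?_⟩
      intro x hx y hy
      apply Subtype.ext
      exact hA _ (h3 x hx) _ (h3 y hy)
    · refine ⟨m + Nat.card A, fun K a h1 h2 h3 => hfin (N + 1) r m (Nat.card A) K a h1 h2
        (A.subgroupOf K) ?_ ?_ (fun x hx => h3 x hx)⟩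
      · exact Finite.of_injective (fun x : A.subgroupOf K => (⟨((x : K) : G), x.2⟩ : A))
          (fun x y hxy => Subtype.ext (Subtype.ext (Subtype.mk.inj hxy)))
      · exact Nat.card_le_card_of_injective (fun x : A.subgroupOf K => (⟨((x : K) : G), x.2⟩ : A))
          (fun x y hxy => Subtype.ext (Subtype.ext (Subtype.mk.inj hxy)))
    · obtain ⟨c, hc⟩ := ro_bound (N + 1) r m (by omega)
      refine ⟨c, fun K a h1 h2 h3 => hc K a h1 h2 ?_⟩
      let f : Subgroup.lowerCentralSeries (⊤ : Subgroup K) m →* A :=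
        { toFun := fun x => ⟨((x : K) : G), h3 x.1 x.2⟩
          map_one' := rfl
          map_mul' := fun x y => rfl }
      exact RO_inj f (fun x y hxy => Subtype.ext (Subtype.ext (Subtype.mk.inj hxy))) hA
  obtain ⟨c, hc⟩ := hbound
  refine ⟨c, ?_⟩
  intro b hE
  have hE' : ∀ i x, (fun z : G => z⁻¹ * (b i)⁻¹ * z * b i)^[N + 1] x = 1 := fun i x =>
    iter_add (b i) N _ (by omega) x (hE i x)
  -- the quotient
  have hq := hm (fun i => QuotientGroup.mk' A (b i))
    (fun i x => Pool.Agent.Helper28.BN.engel_quot A (b i) (N + 1) (hE' i) x)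
  have hcl : Subgroup.closure (Set.range fun i => QuotientGroup.mk' A (b i)) =
      (Subgroup.closure (Set.range b)).map (QuotientGroup.mk' A) := by
    rw [MonoidHom.map_closure, ← Set.range_comp]; rfl
  rw [hcl, ← Subgroup.map_lowerCentralSeries, Subgroup.map_eq_bot_iff, QuotientGroup.ker_mk'] at hq
  obtain ⟨K, hK⟩ : ∃ K : Subgroup G, K = Subgroup.closure (Set.range b) := ⟨_, rfl⟩
  rw [← hK] at hq ⊢
  have hb : ∀ i, b i ∈ K := fun i => hK ▸ Subgroup.subset_closure ⟨i, rfl⟩
  have h1 := hc K (fun i => ⟨b i, hb i⟩) ?_ ?_ ?_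
  · rw [← Subgroup.top_subtype_lowerCentralSeries, h1, Subgroup.map_bot]
  · rw [eq_top_iff]
    intro x _
    have h2 : (Subgroup.closure (Set.range fun i => (⟨b i, hb i⟩ : K))).map K.subtype = K := by
      rw [MonoidHom.map_closure, ← Set.range_comp]
      exact hK.symm
    have h3 : (x : G) ∈ (Subgroup.closure (Set.range fun i => (⟨b i, hb i⟩ : K))).map K.subtype := by
      rw [h2]; exact x.2
    obtain ⟨y, hy, hyx⟩ := h3
    have : y = x := Subtype.ext hyx
    rw [← this]; exact hy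
  · intro i x
    have key : ∀ j : ℕ, (((fun z : K => z⁻¹ * (⟨b i, hb i⟩ : K)⁻¹ * z * ⟨b i, hb i⟩)^[j] x : K) : G) =
        (fun z : G => z⁻¹ * (b i)⁻¹ * z * b i)^[j] (x : G) := by
      intro j
      induction j with
      | zero => rfl
      | succ j ih =>
        rw [Function.iterate_succ_apply', Function.iterate_succ_apply', ← ih]
        rfl
    apply Subtype.ext
    rw [key, hE']
    rfl
  · intro x hx
    apply hq
    rw [← Subgroup.top_subtype_lowerCentralSeries]
    exact ⟨x, hx, rfl⟩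

/-- The smallest class of groups that contains the trivial groups and contains `G` as soon as it
contains `G ⧸ A` for a normal subgroup `A` that is abelian, finite or right-orderable. -/
inductive PolyRO : ∀ (G : Type) [Group G], Prop
  | triv (G : Type) [Group G] (h : ∀ x : G, x = 1) : PolyRO G
  | ext (G : Type) [Group G] (A : Subgroup G) [A.Normal]
      (hA : (∀ x ∈ A, ∀ y ∈ A, x * y = y * x) ∨ Finite A ∨
        ∃ _ : LinearOrder A, ∀ a b c : A, a ≤ b → a * c ≤ b * c)
      (hQ : PolyRO (G ⧸ A)) : PolyRO G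

theorem bc_all (hab : AbBound) (hfin : FinBound) (G : Type) [Group G] (h : PolyRO G) : BC G := by
  induction h with
  | triv G h =>
    intro N r
    refine ⟨0, fun b _ => ?_⟩
    rw [eq_bot_iff]
    intro x _
    rw [Subgroup.mem_bot]
    exact h x
  | ext G A hA hQ ih =>
    refine bc_step hab hfin G A ?_ ih
    rcases hA with h | h | h
    · exact Or.inl h
    · exact Or.inr (Or.inl h)
    · exact Or.inr (Or.inr (RO_of_order A h))

end Pool.Agent.Helper351.RE
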