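import Mathlib
import Pool.Agent.Helper639.LI.Main

set_option autoImplicit false

namespace Pool.Agent.Helper351.RE


/-- direct product step for `ab_bound` -/
theorem ab_bound_prod (N r m : ℕ) (H : ℕ → Type) [inst : ∀ j, Group (H j)]
    (a : ∀ j, Fin r → H j)
    (h1 : ∀ j, Subgroup.closure (Set.range (a j)) = ⊤)
    (h2 : ∀ j i (x : H j), (fun z : H j => z⁻¹ * (a j i)⁻¹ * z * a j i)^[N] x = 1)
    (h3 : ∀ j, ∀ x ∈ Subgroup.lowerCentralSeries (⊤ : Subgroup (H j)) m,
      ∀ y ∈ Subgroup.lowerCentralSeries (⊤ : Subgroup (H j)) m, x * y = y * x) :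
    ∃ c : ℕ, ∀ j, Subgroup.lowerCentralSeries (⊤ : Subgroup (H j)) c = ⊥ := by
  classical
  let d : Fin r → (∀ j, H j) := fun i j => a j i
  let K : Subgroup (∀ j, H j) := Subgroup.closure (Set.range d)
  let dK : Fin r → K := fun i => ⟨d i, Subgroup.subset_closure ⟨i, rfl⟩⟩
  let φ : ∀ j, K →* H j := fun j => (Pi.evalMonoidHom H j).comp K.subtype
  have hφd : ∀ j i, φ j (dK i) = a j i := fun j i => rfl
  have hgen : Subgroup.closure (Set.range dK) = ⊤ := by
    have e := Subgroup.closure_closure_coe_preimage (k := Set.range d)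
    rw [← e]
    congr 1
    ext x
    constructor
    · rintro ⟨i, rfl⟩
      exact ⟨i, rfl⟩
    · rintro ⟨i, hi⟩
      exact ⟨i, Subtype.ext hi⟩
  have hext : ∀ x y : K, (∀ j, φ j x = φ j y) → x = y := by
    intro x y h
    refine Subtype.ext (funext fun j => h j)
  have hE : ∀ i (x : K), (fun z : K => z⁻¹ * (dK i)⁻¹ * z * dK i)^[N] x = 1 := by
    intro i x
    apply hext
    intro j
    have hsc : Function.Semiconj (φ j) (fun z : K => z⁻¹ * (dK i)⁻¹ * z * dK i)
        (fun z : H j => z⁻¹ * (a j i)⁻¹ * z * a j i) := by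
      intro z
      simp only [map_mul, map_inv, hφd]
    have h4 := (hsc.iterate_right N) x
    rw [h4, h2 j i, map_one]
  have hmap : ∀ j n, ∀ x ∈ Subgroup.lowerCentralSeries (⊤ : Subgroup K) n,
      φ j x ∈ Subgroup.lowerCentralSeries (⊤ : Subgroup (H j)) n := by
    intro j n x hx
    have h4 : φ j x ∈ (Subgroup.lowerCentralSeries (⊤ : Subgroup K) n).map (φ j) :=
      Subgroup.mem_map_of_mem _ hx
    rw [Subgroup.map_lowerCentralSeries] at h4
    exact Subgroup.lowerCentralSeries_mono n le_top h4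
  have hab : ∀ x ∈ Subgroup.lowerCentralSeries (⊤ : Subgroup K) m,
      ∀ y ∈ Subgroup.lowerCentralSeries (⊤ : Subgroup K) m, x * y = y * x := by
    intro x hx y hy
    apply hext
    intro j
    rw [map_mul, map_mul]
    exact h3 j _ (hmap j m x hx) _ (hmap j m y hy)
  have hnil : Group.IsNilpotent K := Pool.Agent.Helper639.LI.nilp_of dK hgen N hE m hab
  obtain ⟨c, hc⟩ := Subgroup.nilpotent_iff_lowerCentralSeries.1 hnil
  refine ⟨c, fun j => ?_⟩
  have hsurj : (⊤ : Subgroup K).map (φ j) = ⊤ := by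
    rw [eq_top_iff, ← h1 j, Subgroup.closure_le]
    rintro _ ⟨i, rfl⟩
    exact ⟨dK i, trivial, hφd j i⟩
  have h5 := Subgroup.map_lowerCentralSeries (⊤ : Subgroup K) (φ j) c
  rw [hc, Subgroup.map_bot, hsurj] at h5
  exact h5.symm

/-- bounded version of `Pool.Agent.Helper639.LI.nilp_of` (by a direct product argument) -/
theorem ab_bound (N r m : ℕ) : ∃ c : ℕ, ∀ (H : Type) [Group H] (a : Fin r → H),
    Subgroup.closure (Set.range a) = ⊤ →
    (∀ i (x : H), (fun z : H => z⁻¹ * (a i)⁻¹ * z * a i)^[N] x = 1) →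
    (∀ x ∈ Subgroup.lowerCentralSeries (⊤ : Subgroup H) m,
      ∀ y ∈ Subgroup.lowerCentralSeries (⊤ : Subgroup H) m, x * y = y * x) →
    Subgroup.lowerCentralSeries (⊤ : Subgroup H) c = ⊥ := by
  by_contra hcon
  push Not at hcon
  choose H inst a h1 h2 h3 h4 using hcon
  obtain ⟨c, hc⟩ := ab_bound_prod N r m H a h1 h2 h3
  exact h4 c (hc c)



end Pool.Agent.Helper351.RE
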