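import Mathlib
import Pool.Agent.Helper639.LI.Main

set_option autoImplicit false

namespace Pool.Agent.Helper351.RE


/-- finite-by-nilpotent groups generated by `r` left `N`-Engel elements -/
theorem fin_bound (N r m f : ℕ) (H : Type) [Group H] (a : Fin r → H)
    (hgen : Subgroup.closure (Set.range a) = ⊤)
    (hE : ∀ i (x : H), (fun z : H => z⁻¹ * (a i)⁻¹ * z * a i)^[N] x = 1)
    (A : Subgroup H) (hA : Finite A) (hf : Nat.card A ≤ f)
    (hm : Subgroup.lowerCentralSeries (⊤ : Subgroup H) m ≤ A) :
    Subgroup.lowerCentralSeries (⊤ : Subgroup H) (m + f) = ⊥ := by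
  classical
  have hfinle : ∀ P : Subgroup H, P ≤ A → Finite P := fun P hP =>
    Finite.of_injective (Subgroup.inclusion hP) (Subgroup.inclusion_injective hP)
  -- nilpotency
  have hnil : ∃ k, Subgroup.lowerCentralSeries (⊤ : Subgroup H) k = ⊥ := by
    set M := Subgroup.lowerCentralSeries (⊤ : Subgroup H) m with hM
    have hMn : M.Normal := by rw [hM]; infer_instance
    have h1 : ∀ P : Subgroup H, P ≤ M → P.FG := fun P hP => by
      have : Finite P := hfinle P (hP.trans hm)
      exact (Group.fg_iff_subgroup_fg P).1 inferInstance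
    have hFG : Group.FG H := by
      refine ⟨(Subgroup.fg_iff _).2 ⟨_, hgen, Set.finite_range a⟩⟩
    have hq : Group.IsNilpotent (H ⧸ M) := by
      rw [Subgroup.nilpotent_iff_lowerCentralSeries]
      refine ⟨m, ?_⟩
      have hmap : Subgroup.lowerCentralSeries (⊤ : Subgroup (H ⧸ M)) m =
          (Subgroup.lowerCentralSeries (⊤ : Subgroup H) m).map (QuotientGroup.mk' M) := by
        rw [Subgroup.map_lowerCentralSeries, Subgroup.map_top_of_surjective _
          (QuotientGroup.mk'_surjective _)]
      rw [hmap, Subgroup.map_eq_bot_iff, QuotientGroup.ker_mk']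
    have hqfg : Group.FG (H ⧸ M) := QuotientGroup.fg _
    have h2 : ∀ Q : Subgroup (H ⧸ M), Q.FG := by
      intro Q
      obtain ⟨n, ⟨C⟩⟩ := H294Ore.cs_of_fg_nilpotent (H ⧸ M)
      exact H294Ore.cs_noeth C Q
    have h3 := Pool.Agent.Helper639.LI.mc_of_noeth (Pool.Agent.Helper639.LI.noeth_ext M h1 h2)
    set X : Set H := {x | ∃ (i : Fin r) (t : H), x = t⁻¹ * a i * t} with hX
    have h4 := Pool.Agent.EngelMc.main h3 (X := X) ?_ ?_
    · have h5 : Pool.Agent.EngelMc.Nil (Subgroup.closure (Set.range a)) := by
        apply h4 _ (Set.finite_range a)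
        rintro _ ⟨i, rfl⟩
        exact Subgroup.subset_closure ⟨i, 1, by simp⟩
      rw [hgen] at h5
      exact h5
    · rintro g _ ⟨i, t, rfl⟩
      refine ⟨i, t * g⁻¹, by group⟩
    · rintro x _ _ ⟨i, t, rfl⟩
      refine ⟨N, ?_⟩
      exact Pool.Agent.Helper28.BO.iter_conj (a i) t N (hE i) x
  obtain ⟨k, hk⟩ := hnil
  set L : ℕ → Subgroup H := fun n => Subgroup.lowerCentralSeries (⊤ : Subgroup H) n with hL
  have hsucc : ∀ n, L (n + 1) = ⁅L n, (⊤ : Subgroup H)⁆ := fun n => by
    simp only [hL]; rw [Subgroup.lowerCentralSeries_succ]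
  have hanti : Antitone L := Subgroup.lowerCentralSeries_antitone _
  have hLA : ∀ j, L (m + j) ≤ A := fun j => (hanti (Nat.le_add_right m j)).trans hm
  have hstab : ∀ n, L (n + 1) = L n → L n = ⊥ := by
    intro n hn
    have hall : ∀ t, L (n + t) = L n := by
      intro t
      induction t with
      | zero => rfl
      | succ t ih => rw [← Nat.add_assoc, hsucc, ih, ← hsucc, hn]
    have h1 : L (n + k) ≤ L k := hanti (Nat.le_add_left k n)
    rw [hall k, show L k = ⊥ from hk] at h1
    exact le_bot_iff.1 h1
  have hcard : ∀ j, Nat.card (L (m + j)) ≤ max 1 (f - j) := by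
    intro j
    induction j with
    | zero =>
      refine le_trans (Nat.card_le_card_of_injective (Subgroup.inclusion (hLA 0))
        (Subgroup.inclusion_injective (hLA 0))) ?_
      simp only [Nat.sub_zero]
      exact hf.trans (le_max_right _ _)
    | succ j ih =>
      have := hfinle _ (hLA j)
      have := hfinle _ (hLA (j + 1))
      by_cases he : L (m + j + 1) = L (m + j)
      · have hb := hstab _ he
        rw [← Nat.add_assoc, he, hb]
        simp
      · have hle : L (m + j + 1) ≤ L (m + j) := hanti (Nat.le_succ _)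
        have hlt : Nat.card (L (m + j + 1)) < Nat.card (L (m + j)) := by
          refine lt_of_le_of_ne (Nat.card_le_card_of_injective (Subgroup.inclusion hle)
            (Subgroup.inclusion_injective hle)) (fun h => he ?_)
          exact Subgroup.eq_of_le_of_card_ge hle h.ge
        have hpos : 0 < Nat.card (L (m + (j + 1))) := Nat.card_pos
        rw [← Nat.add_assoc] at hpos ⊢
        have : max 1 (f - j) = f - j ∨ max 1 (f-j) = 1 := by
          rcases le_total 1 (f - j) with h | h
          · left; exact max_eq_right h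
          · right; exact max_eq_left h
        omega
  have h1 := hcard f
  rw [Nat.sub_self, max_eq_left (Nat.zero_le 1)] at h1
  have := hfinle _ (hLA f)
  exact (Subgroup.card_le_one_iff_eq_bot _).1 h1


end Pool.Agent.Helper351.RE
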