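import Mathlib
import Pool.Agent.Helper351.RE.B3
import Pool.Agent.Helper351.RE.J2
import Pool.Agent.Helper351.RE.J3

set_option autoImplicit false

namespace Pool.Agent.Helper351.RE

theorem bc_poly (G : Type) [Group G] (h : PolyRO G) : BC G :=
  bc_all (fun N r m => ab_bound N r m)
    (fun N r m f H _ a h1 h2 A h3 h4 h5 => fin_bound N r m f H a h1 h2 A h3 h4 h5) G h

end Pool.Agent.Helper351.RE
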