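import Mathlib
import Pool.Agent.Helper639.LI.Main

set_option autoImplicit false

open scoped commutatorElement
open Pool.Agent.Helper28.BN (cw)

namespace Pool.Agent.Helper351.RE

open Pool.Agent.Helper639.LI

/-- `a` is a left Engel element (unbounded) -/
def LE {G : Type*} [Group G] (a : G) : Prop :=
  ∀ x : G, ∃ n : ℕ, (fun z : G => z⁻¹ * a⁻¹ * z * a)^[n] x = 1

theorem conj_iter {G : Type*} [Group G] (a t x : G) (n : ℕ) :
    (fun z : G => z⁻¹ * (t⁻¹ * a * t)⁻¹ * z * (t⁻¹ * a * t))^[n] x =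
      t⁻¹ * (fun z : G => z⁻¹ * a⁻¹ * z * a)^[n] (t * x * t⁻¹) * t := by
  induction n with
  | zero => simp only [Function.iterate_zero, id]; group
  | succ n ih =>
    rw [Function.iterate_succ_apply', Function.iterate_succ_apply', ih]
    group

theorem LE.conj {G : Type*} [Group G] {a : G} (h : LE a) (t : G) : LE (t⁻¹ * a * t) := by
  intro x
  obtain ⟨n, hn⟩ := h (t * x * t⁻¹)
  refine ⟨n, ?_⟩
  rw [conj_iter, hn]; group

theorem map_iter {G H : Type*} [Group G] [Group H] (f : G →* H) (a x : G) (n : ℕ) :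
    f ((fun z : G => z⁻¹ * a⁻¹ * z * a)^[n] x) = (fun z : H => z⁻¹ * (f a)⁻¹ * z * f a)^[n] (f x) := by
  induction n with
  | zero => rfl
  | succ n ih =>
    rw [Function.iterate_succ_apply', Function.iterate_succ_apply', ← ih]
    simp only [map_mul, map_inv]

theorem LE.map {G H : Type*} [Group G] [Group H] {a : G} (h : LE a) (f : G →* H)
    (hf : Function.Surjective f) : LE (f a) := by
  intro y
  obtain ⟨x, rfl⟩ := hf y
  obtain ⟨n, hn⟩ := h x
  exact ⟨n, by rw [← map_iter, hn, map_one]⟩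

theorem LE.of_inj {G H : Type*} [Group G] [Group H] {a : G} (f : G →* H)
    (hf : Function.Injective f) (h : LE (f a)) : LE a := by
  intro x
  obtain ⟨n, hn⟩ := h (f x)
  exact ⟨n, hf (by rw [map_iter, hn, map_one])⟩

theorem lcs_fg' {G : Type*} [Group G] {r : ℕ} (a : Fin r → G)
    (hgen : Subgroup.closure (Set.range a) = ⊤)
    (hE : ∀ i, LE (a i)) (c : ℕ) :
    (Subgroup.lowerCentralSeries (⊤ : Subgroup G) c).FG := by
  classical
  induction c with
  | zero =>
    rw [Subgroup.lowerCentralSeries_zero, ← hgen]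
    exact (Subgroup.fg_iff _).2 ⟨_, rfl, Set.finite_range a⟩
  | succ c ih =>
    have hfin : {x | ∃ (i : Fin r) (w : List (Fin r)), w.length = c ∧ x = cw a i w}.Finite := by
      have h1 : {x | ∃ (i : Fin r) (w : List (Fin r)), w.length = c ∧ x = cw a i w} =
          Set.image2 (fun (i : Fin r) (w : List (Fin r)) => cw a i w) Set.univ
            {w : List (Fin r) | w.length = c} := by
        ext x
        simp only [Set.mem_ofPred_eq, Set.mem_image2, Set.mem_univ, true_and]
        constructor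
        · rintro ⟨i, w, hw, rfl⟩; exact ⟨i, w, hw, rfl⟩
        · rintro ⟨i, w, hw, rfl⟩; exact ⟨i, w, hw, rfl⟩
      rw [h1]
      exact Set.finite_univ.image2 _ (List.finite_length_eq (Fin r) c)
    refine fg_chain (Subgroup.lowerCentralSeries (⊤ : Subgroup G) (c + 1)) inferInstance
      hfin.toFinset (Subgroup.lowerCentralSeries (⊤ : Subgroup G) c) ?_ ih ?_ ?_
    · rw [Subgroup.lowerCentralSeries_succ]
    · rw [Set.Finite.coe_toFinset]
      exact lcs_gen a hgen c
    · intro u hu
      rw [Set.Finite.mem_toFinset] at hu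
      obtain ⟨i, w, hw, rfl⟩ := hu
      cases w with
      | nil =>
        exact ⟨1, a i, Or.inr rfl, fun x y => (hE i).conj x y⟩
      | cons j w =>
        exact ⟨cw a i w, a j, Or.inl rfl, fun x y => (hE j).conj x y⟩

/-- groups generated by finitely many left Engel elements, with a noetherian lower central term -/
theorem nilp_noeth {H : Type} [Group H] {r : ℕ} (a : Fin r → H)
    (hgen : Subgroup.closure (Set.range a) = ⊤)
    (hE : ∀ i, LE (a i)) (c : ℕ)
    (h1 : ∀ P : Subgroup H, P ≤ Subgroup.lowerCentralSeries (⊤ : Subgroup H) c → P.FG) :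
    Group.IsNilpotent H := by
  classical
  set M := Subgroup.lowerCentralSeries (⊤ : Subgroup H) c with hM
  have hMn : M.Normal := by rw [hM]; infer_instance
  have hFG : Group.FG H := by
    refine ⟨(Subgroup.fg_iff _).2 ⟨_, hgen, Set.finite_range a⟩⟩
  have hq : Group.IsNilpotent (H ⧸ M) := by
    rw [Subgroup.nilpotent_iff_lowerCentralSeries]
    refine ⟨c, ?_⟩
    have hmap : Subgroup.lowerCentralSeries (⊤ : Subgroup (H ⧸ M)) c =
        (Subgroup.lowerCentralSeries (⊤ : Subgroup H) c).map (QuotientGroup.mk' M) := by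
      rw [Subgroup.map_lowerCentralSeries, Subgroup.map_top_of_surjective _
        (QuotientGroup.mk'_surjective _)]
    rw [hmap, Subgroup.map_eq_bot_iff, QuotientGroup.ker_mk']
  have hqfg : Group.FG (H ⧸ M) := QuotientGroup.fg _
  have h2 : ∀ Q : Subgroup (H ⧸ M), Q.FG := by
    intro Q
    obtain ⟨n, ⟨C⟩⟩ := H294Ore.cs_of_fg_nilpotent (H ⧸ M)
    exact H294Ore.cs_noeth C Q
  have h3 := mc_of_noeth (noeth_ext M h1 h2)
  set X : Set H := {x | ∃ (i : Fin r) (t : H), x = t⁻¹ * a i * t} with hX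
  have h4 := Pool.Agent.EngelMc.main h3 (X := X) ?_ ?_
  · have h5 : Pool.Agent.EngelMc.Nil (Subgroup.closure (Set.range a)) := by
      apply h4 _ (Set.finite_range a)
      rintro _ ⟨i, rfl⟩
      exact Subgroup.subset_closure ⟨i, 1, by simp⟩
    rw [hgen] at h5
    exact Subgroup.nilpotent_iff_lowerCentralSeries.2 h5
  · rintro g _ ⟨i, t, rfl⟩
    refine ⟨i, t * g⁻¹, by group⟩
  · rintro x y _ ⟨i, t, rfl⟩
    exact (hE i).conj t x

theorem nilp_ab {H : Type} [Group H] {r : ℕ} (a : Fin r → H)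
    (hgen : Subgroup.closure (Set.range a) = ⊤)
    (hE : ∀ i, LE (a i)) (c : ℕ)
    (hab : ∀ x ∈ Subgroup.lowerCentralSeries (⊤ : Subgroup H) c,
      ∀ y ∈ Subgroup.lowerCentralSeries (⊤ : Subgroup H) c, x * y = y * x) :
    Group.IsNilpotent H :=
  nilp_noeth a hgen hE c (fg_sub_comm _ (lcs_fg' a hgen hE c) hab)

theorem nilp_fin {H : Type} [Group H] {r : ℕ} (a : Fin r → H)
    (hgen : Subgroup.closure (Set.range a) = ⊤)
    (hE : ∀ i, LE (a i)) (c : ℕ)
    (hfin : Finite (Subgroup.lowerCentralSeries (⊤ : Subgroup H) c)) :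
    Group.IsNilpotent H := by
  refine nilp_noeth a hgen hE c (fun P hP => ?_)
  have h1 : (P : Set H).Finite := by
    refine Set.Finite.subset (s := (Subgroup.lowerCentralSeries (⊤ : Subgroup H) c : Set H)) ?_ hP
    exact Set.toFinite _
  exact (Subgroup.fg_iff _).2 ⟨(P : Set H), Subgroup.closure_eq P, h1⟩

end Pool.Agent.Helper351.RE
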