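import Mathlib
import Pool.Agent.Helper351.RE.C1

set_option autoImplicit false

open scoped commutatorElement

namespace Pool.Agent.Helper351.RE

open Pool.Agent.Helper639.LI

/-- every finitely generated subgroup can be generated by `r` elements -/
def Rk (r : ℕ) (G : Type) [Group G] : Prop :=
  ∀ S : Subgroup G, S.FG → ∃ T : Finset G, T.card ≤ r ∧ Subgroup.closure (T : Set G) = S

theorem Rk.inj {r : ℕ} {A B : Type} [Group A] [Group B] (h : Rk r B) (f : A →* B)
    (hf : Function.Injective f) : Rk r A := by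
  classical
  intro S hS
  have h1 : (S.map f).FG := by
    obtain ⟨U, hU⟩ := hS
    refine (Subgroup.fg_iff _).2 ⟨f '' (U : Set A), ?_, U.finite_toSet.image _⟩
    rw [← MonoidHom.map_closure, hU]
  obtain ⟨T, hT1, hT2⟩ := h _ h1
  refine ⟨T.preimage f hf.injOn, ?_, ?_⟩
  · exact (Finset.card_le_card_of_injOn f (by
      intro x hx
      have := Finset.mem_preimage.1 (Finset.mem_coe.1 hx)
      exact this) hf.injOn).trans hT1
  · apply Subgroup.map_injective hf
    rw [MonoidHom.map_closure, ← hT2]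
    congr 1
    ext y
    simp only [Finset.coe_preimage, Set.mem_image, Set.mem_preimage, Finset.mem_coe]
    constructor
    · rintro ⟨x, hx, rfl⟩; exact hx
    · intro hy
      have h3 : y ∈ S.map f := by rw [← hT2]; exact Subgroup.subset_closure hy
      obtain ⟨x, _, rfl⟩ := h3
      exact ⟨x, hy, rfl⟩

theorem Rk.surj {r : ℕ} {A B : Type} [Group A] [Group B] (h : Rk r A) (f : A →* B)
    (hf : Function.Surjective f) : Rk r B := by
  classical
  intro S hS
  obtain ⟨U, hU⟩ := hS
  choose g hg using hf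
  have h1 : (Subgroup.closure (g '' (U : Set B))).FG :=
    (Subgroup.fg_iff _).2 ⟨g '' (U : Set B), rfl, U.finite_toSet.image _⟩
  obtain ⟨T, hT1, hT2⟩ := h _ h1
  refine ⟨T.image f, Finset.card_image_le.trans hT1, ?_⟩
  rw [Finset.coe_image, ← MonoidHom.map_closure, hT2, MonoidHom.map_closure, ← Set.image_comp]
  have h2 : (f ∘ g) '' (U : Set B) = U := by
    have : (f ∘ g) = id := by ext x; simp [hg]
    rw [this, Set.image_id]
  rw [h2, hU]

/-- locally indicable -/
def LI (G : Type) [Group G] : Prop :=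
  ∀ K : Subgroup G, K.FG → K ≠ ⊥ → ∃ φ : K →* Multiplicative ℤ, Function.Surjective φ

theorem LI.inj {A B : Type} [Group A] [Group B] (h : LI B) (f : A →* B)
    (hf : Function.Injective f) : LI A := by
  intro P hP hP1
  have hfg : (P.map f).FG := by
    obtain ⟨S, hS⟩ := hP
    refine (Subgroup.fg_iff _).2 ⟨f '' (S : Set A), ?_, S.finite_toSet.image _⟩
    rw [← MonoidHom.map_closure, hS]
  obtain ⟨φ, hφ⟩ := h (P.map f) hfg (by
    rw [Ne, Subgroup.map_eq_bot_iff_of_injective _ hf]
    exact hP1)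
  let e : P ≃* P.map f := P.equivMapOfInjective f hf
  exact ⟨φ.comp e.toMonoidHom, hφ.comp e.surjective⟩

/-- torsion-free nilpotent groups of rank `r` -/
def TfRank : Prop := ∀ (r : ℕ) (H : Type) [Group H], Group.IsNilpotent H →
    (∀ i, (Subgroup.lowerCentralSeries (⊤ : Subgroup H) i).FG) →
    (∀ (x : H) (n : ℕ), 0 < n → x ^ n = 1 → x = 1) →
    Rk r H → Subgroup.lowerCentralSeries (⊤ : Subgroup H) (2 * r) = ⊥

theorem li_step (tf : TfRank) (r k m : ℕ) (G : Type) [Group G] (a : Fin k → G)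
    (hgen : Subgroup.closure (Set.range a) = ⊤)
    (hE : ∀ i, LE (a i)) (hr : Rk r G)
    (hLI : LI (Subgroup.lowerCentralSeries (⊤ : Subgroup G) m)) :
    Subgroup.lowerCentralSeries (⊤ : Subgroup G) (max m (2 * r)) = ⊥ := by
  classical
  obtain ⟨c, hcdef⟩ : ∃ c, c = max m (2 * r) := ⟨_, rfl⟩
  rw [← hcdef]
  have hcm : m ≤ c := hcdef ▸ le_max_left _ _
  have hcc : 2 * r ≤ c := hcdef ▸ le_max_right _ _
  by_contra hne
  have hanti : Subgroup.lowerCentralSeries (⊤ : Subgroup G) c ≤
      Subgroup.lowerCentralSeries (⊤ : Subgroup G) m := Subgroup.lowerCentralSeries_antitone _ hcm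
  set γ := Subgroup.lowerCentralSeries (⊤ : Subgroup G) c with hγ
  have hLIγ : LI γ := hLI.inj (Subgroup.inclusion hanti) (Subgroup.inclusion_injective hanti)
  have hγfg : γ.FG := lcs_fg' a hgen hE c
  have htopfg : (⊤ : Subgroup γ).FG := by
    have := (Group.fg_iff_subgroup_fg γ).2 hγfg
    exact Group.fg_def.1 this
  have htopne : (⊤ : Subgroup γ) ≠ ⊥ := by
    intro h
    apply hne
    rw [eq_bot_iff]
    intro x hx
    have h1 : (⟨x, hx⟩ : γ) ∈ (⊤ : Subgroup γ) := Subgroup.mem_top _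
    rw [h, Subgroup.mem_bot] at h1
    exact congrArg Subtype.val h1
  obtain ⟨φ', hφ'⟩ := hLIγ ⊤ htopfg htopne
  let φ : γ →* Multiplicative ℤ := φ'.comp (Subgroup.topEquiv (G := γ)).symm.toMonoidHom
  have hφ : Function.Surjective φ := hφ'.comp (Subgroup.topEquiv (G := γ)).symm.surjective
  set D : Subgroup G := ⁅γ, γ⁆ with hD
  have hγn : γ.Normal := by rw [hγ]; infer_instance
  have hDn : D.Normal := by rw [hD]; infer_instance
  -- the quotient `G ⧸ D` is nilpotent
  have hgenq : Subgroup.closure (Set.range fun i => QuotientGroup.mk' D (a i)) = ⊤ := by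
    have e : (Set.range fun i => QuotientGroup.mk' D (a i)) =
        (QuotientGroup.mk' D) '' (Set.range a) := by
      rw [← Set.range_comp]; rfl
    rw [e, ← MonoidHom.map_closure, hgen]
    exact Subgroup.map_top_of_surjective _ (QuotientGroup.mk'_surjective _)
  have hEq : ∀ i, LE (QuotientGroup.mk' D (a i)) := fun i =>
    (hE i).map _ (QuotientGroup.mk'_surjective _)
  have hmap : Subgroup.lowerCentralSeries (⊤ : Subgroup (G ⧸ D)) c =
      γ.map (QuotientGroup.mk' D) := by
    rw [hγ, Subgroup.map_lowerCentralSeries, Subgroup.map_top_of_surjective _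
      (QuotientGroup.mk'_surjective _)]
  have hnil : Group.IsNilpotent (G ⧸ D) := by
    refine nilp_ab (fun i => QuotientGroup.mk' D (a i)) hgenq hEq c ?_
    rw [hmap]
    rintro _ ⟨x, hx, rfl⟩ _ ⟨y, hy, rfl⟩
    have h1 : ⁅x, y⁆ ∈ D := Subgroup.commutator_mem_commutator hx hy
    have h2 : QuotientGroup.mk' D ⁅x, y⁆ = 1 := by
      rw [QuotientGroup.mk'_apply, QuotientGroup.eq_one_iff]; exact h1
    rw [map_commutatorElement, commutatorElement_eq_one_iff_mul_comm] at h2
    exact h2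
  -- the torsion subgroup
  obtain ⟨T, hTn, hT⟩ := Pool.Agent.Helper28.BN.pi_sub Set.univ (G ⧸ D)
  have hgenT : Subgroup.closure (Set.range fun i => QuotientGroup.mk' T (QuotientGroup.mk' D (a i))) =
      ⊤ := by
    have e : (Set.range fun i => QuotientGroup.mk' T (QuotientGroup.mk' D (a i))) =
        (QuotientGroup.mk' T) '' (Set.range fun i => QuotientGroup.mk' D (a i)) := by
      rw [← Set.range_comp]; rfl
    rw [e, ← MonoidHom.map_closure, hgenq]
    exact Subgroup.map_top_of_surjective _ (QuotientGroup.mk'_surjective _)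
  have hEqT : ∀ i, LE (QuotientGroup.mk' T (QuotientGroup.mk' D (a i))) := fun i =>
    (hEq i).map _ (QuotientGroup.mk'_surjective _)
  have hb0 := tf r ((G ⧸ D) ⧸ T) inferInstance (lcs_fg' _ hgenT hEqT)
    (fun x n hn hx => Pool.Agent.Helper28.BN.noTor_quot _ _ T hT x n
      ⟨hn, fun q _ _ => Set.mem_univ q⟩ hx)
    ((hr.surj (QuotientGroup.mk' D) (QuotientGroup.mk'_surjective _)).surj
      (QuotientGroup.mk' T) (QuotientGroup.mk'_surjective _))
  have hb : Subgroup.lowerCentralSeries (⊤ : Subgroup ((G ⧸ D) ⧸ T)) c = ⊥ := by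
    rw [eq_bot_iff, ← hb0]
    exact Subgroup.lowerCentralSeries_antitone _ hcc
  have hmapT : Subgroup.lowerCentralSeries (⊤ : Subgroup ((G ⧸ D) ⧸ T)) c =
      (Subgroup.lowerCentralSeries (⊤ : Subgroup (G ⧸ D)) c).map (QuotientGroup.mk' T) := by
    rw [Subgroup.map_lowerCentralSeries, Subgroup.map_top_of_surjective _
      (QuotientGroup.mk'_surjective _)]
  rw [hmapT, Subgroup.map_eq_bot_iff, QuotientGroup.ker_mk', hmap] at hb
  -- every element of `γ` has a power in `D`, so `φ` is trivial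
  have hcomm : ∀ x : γ, (x : G) ∈ D → φ x = 1 := by
    intro x hx
    have h1 : D ≤ (φ.ker).map γ.subtype := by
      rw [hD, Subgroup.commutator_le]
      intro p hp q hq
      refine ⟨⁅(⟨p, hp⟩ : γ), ⟨q, hq⟩⁆, ?_, rfl⟩
      show ⁅(⟨p, hp⟩ : γ), ⟨q, hq⟩⁆ ∈ φ.ker
      rw [MonoidHom.mem_ker, map_commutatorElement, commutatorElement_eq_one_iff_mul_comm]
      exact mul_comm _ _
    obtain ⟨y, hy, hyx⟩ := h1 hx
    have : y = x := Subtype.ext hyx
    rw [← this]; exact hy
  obtain ⟨x, hx⟩ := hφ (Multiplicative.ofAdd 1)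
  have h1 : (QuotientGroup.mk' D (x : G)) ∈ T := hb ⟨x, x.2, rfl⟩
  obtain ⟨m', hm', hxm⟩ := (hT _).1 h1
  have h2 : ((x ^ m' : γ) : G) ∈ D := by
    rw [← QuotientGroup.eq_one_iff, Subgroup.coe_pow, QuotientGroup.mk_pow]
    exact hxm
  have h3 := hcomm _ h2
  rw [map_pow, hx, ← ofAdd_nsmul] at h3
  have h4 : (m' • (1 : ℤ)) = 0 := Multiplicative.ofAdd.injective h3
  rw [nsmul_eq_mul, mul_one, Nat.cast_eq_zero] at h4
  exact hm'.1.ne' h4

end Pool.Agent.Helper351.RE
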