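import Mathlib
import Pool.Agent.Helper351.RE.C2

set_option autoImplicit false

namespace Pool.Agent.Helper351.RE

open Pool.Agent.Helper28.BO (iter_mem)

/-- subgroups generated by finitely many left Engel elements are nilpotent -/
def NE (G : Type) [Group G] : Prop := ∀ (k : ℕ) (b : Fin k → G), (∀ i, LE (b i)) →
  ∃ c : ℕ, (Subgroup.closure (Set.range b)).lowerCentralSeries c = ⊥

theorem ne_step (tf : TfRank) (r : ℕ) (G : Type) [Group G] (A : Subgroup G) [A.Normal]
    (hA : (∀ x ∈ A, ∀ y ∈ A, x * y = y * x) ∨ Finite A ∨ LI A) (hr : Rk r G)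
    (hQ : NE (G ⧸ A)) : NE G := by
  intro k b hE
  obtain ⟨m, hq⟩ := hQ k (fun i => QuotientGroup.mk' A (b i))
    (fun i => (hE i).map _ (QuotientGroup.mk'_surjective _))
  have hcl : Subgroup.closure (Set.range fun i => QuotientGroup.mk' A (b i)) =
      (Subgroup.closure (Set.range b)).map (QuotientGroup.mk' A) := by
    rw [MonoidHom.map_closure, ← Set.range_comp]; rfl
  rw [hcl, ← Subgroup.map_lowerCentralSeries, Subgroup.map_eq_bot_iff, QuotientGroup.ker_mk'] at hq
  obtain ⟨K, hK⟩ : ∃ K : Subgroup G, K = Subgroup.closure (Set.range b) := ⟨_, rfl⟩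
  rw [← hK] at hq ⊢
  have hb : ∀ i, b i ∈ K := fun i => hK ▸ Subgroup.subset_closure ⟨i, rfl⟩
  let a : Fin k → K := fun i => ⟨b i, hb i⟩
  have hgen : Subgroup.closure (Set.range a) = ⊤ := by
    rw [eq_top_iff]
    intro x _
    have h2 : (Subgroup.closure (Set.range a)).map K.subtype = K := by
      rw [MonoidHom.map_closure, ← Set.range_comp]
      exact hK.symm
    have h3 : (x : G) ∈ (Subgroup.closure (Set.range a)).map K.subtype := by
      rw [h2]; exact x.2
    obtain ⟨y, hy, hyx⟩ := h3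
    have : y = x := Subtype.ext hyx
    rw [← this]; exact hy
  have hEK : ∀ i, LE (a i) := fun i => LE.of_inj K.subtype K.subtype_injective (hE i)
  have hmem : ∀ x : K, x ∈ Subgroup.lowerCentralSeries (⊤ : Subgroup K) m → (x : G) ∈ A := by
    intro x hx
    apply hq
    rw [← Subgroup.top_subtype_lowerCentralSeries]
    exact ⟨x, hx, rfl⟩
  have hnil : ∃ c, Subgroup.lowerCentralSeries (⊤ : Subgroup K) c = ⊥ := by
    let f : Subgroup.lowerCentralSeries (⊤ : Subgroup K) m →* A :=
      { toFun := fun x => ⟨((x : K) : G), hmem x.1 x.2⟩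
        map_one' := rfl
        map_mul' := fun x y => rfl }
    have hf : Function.Injective f := fun x y hxy =>
      Subtype.ext (Subtype.ext (Subtype.mk.inj hxy))
    rcases hA with hA | hA | hA
    · apply Subgroup.nilpotent_iff_lowerCentralSeries.1
      refine nilp_ab a hgen hEK m ?_
      intro x hx y hy
      apply Subtype.ext
      exact hA _ (hmem x hx) _ (hmem y hy)
    · apply Subgroup.nilpotent_iff_lowerCentralSeries.1
      exact nilp_fin a hgen hEK m (Finite.of_injective f hf)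
    · exact ⟨_, li_step tf r k m K a hgen hEK (hr.inj K.subtype K.subtype_injective)
        (hA.inj f hf)⟩
  obtain ⟨c, hc⟩ := hnil
  exact ⟨c, by rw [← Subgroup.top_subtype_lowerCentralSeries, hc, Subgroup.map_bot]⟩

/-- The smallest class of groups that contains the trivial groups and contains `G` as soon as it
contains `G ⧸ A` for a normal subgroup `A` that is abelian, finite or locally indicable. -/
inductive PolyLI : ∀ (G : Type) [Group G], Prop
  | triv (G : Type) [Group G] (h : ∀ x : G, x = 1) : PolyLI G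
  | ext (G : Type) [Group G] (A : Subgroup G) [A.Normal]
      (hA : (∀ x ∈ A, ∀ y ∈ A, x * y = y * x) ∨ Finite A ∨
        ∀ K : Subgroup A, K.FG → K ≠ ⊥ → ∃ φ : K →* Multiplicative ℤ, Function.Surjective φ)
      (hQ : PolyLI (G ⧸ A)) : PolyLI G

theorem ne_all (tf : TfRank) (r : ℕ) (G : Type) [Group G] (h : PolyLI G) (hr : Rk r G) : NE G := by
  induction h with
  | triv G h =>
    intro k b _
    refine ⟨0, ?_⟩
    rw [eq_bot_iff]
    intro x _
    rw [Subgroup.mem_bot]
    exact h x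
  | ext G A hA hQ ih =>
    exact ne_step tf r G A hA hr (ih (hr.surj (QuotientGroup.mk' A) (QuotientGroup.mk'_surjective _)))

theorem engel_main (G : Type) [Group G] (h : NE G) :
    ∃ H : Subgroup G, ∀ g : G,
      g ∈ H ↔ ∀ x : G, ∃ n : ℕ, (fun y : G => y⁻¹ * g⁻¹ * y * g)^[n] x = 1 := by
  refine ⟨{ carrier := {g | LE g}
            mul_mem' := ?_, one_mem' := ?_, inv_mem' := ?_ }, fun g => Iff.rfl⟩
  · rintro g h' hg hh x
    let b : Fin 4 → G := ![g, h', x⁻¹ * g * x, x⁻¹ * h' * x]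
    obtain ⟨c, hb⟩ := h 4 b (by
      intro i
      fin_cases i
      · exact hg
      · exact hh
      · exact LE.conj hg x
      · exact LE.conj hh x)
    refine ⟨c + 1, ?_⟩
    obtain ⟨K, hK⟩ : ∃ K : Subgroup G, K = Subgroup.closure (Set.range b) := ⟨_, rfl⟩
    rw [← hK] at hb
    have h0 : g ∈ K := hK ▸ Subgroup.subset_closure ⟨0, rfl⟩
    have h1 : h' ∈ K := hK ▸ Subgroup.subset_closure ⟨1, rfl⟩
    have h2 : x⁻¹ * g * x ∈ K := hK ▸ Subgroup.subset_closure ⟨2, rfl⟩
    have h3 : x⁻¹ * h' * x ∈ K := hK ▸ Subgroup.subset_closure ⟨3, rfl⟩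
    rw [Function.iterate_succ_apply]
    have h4 : x⁻¹ * (g * h')⁻¹ * x * (g * h') ∈ K := by
      have e : x⁻¹ * (g * h')⁻¹ * x * (g * h') = (x⁻¹ * h' * x)⁻¹ * (x⁻¹ * g * x)⁻¹ * (g * h') := by
        group
      rw [e]
      exact K.mul_mem (K.mul_mem (K.inv_mem h3) (K.inv_mem h2)) (K.mul_mem h0 h1)
    have h5 := iter_mem K (g * h') (K.mul_mem h0 h1) _ h4 c
    rw [hb, Subgroup.mem_bot] at h5
    exact h5
  · intro x
    exact ⟨1, by simp⟩
  · rintro g hg x
    let b : Fin 2 → G := ![g, x⁻¹ * g * x]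
    obtain ⟨c, hb⟩ := h 2 b (by
      intro i
      fin_cases i
      · exact hg
      · exact LE.conj hg x)
    refine ⟨c + 1, ?_⟩
    obtain ⟨K, hK⟩ : ∃ K : Subgroup G, K = Subgroup.closure (Set.range b) := ⟨_, rfl⟩
    rw [← hK] at hb
    have h0 : g ∈ K := hK ▸ Subgroup.subset_closure ⟨0, rfl⟩
    have h2 : x⁻¹ * g * x ∈ K := hK ▸ Subgroup.subset_closure ⟨1, rfl⟩
    rw [Function.iterate_succ_apply]
    have h4 : x⁻¹ * g⁻¹⁻¹ * x * g⁻¹ ∈ K := by
      rw [inv_inv]
      exact K.mul_mem h2 (K.inv_mem h0)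
    have h5 := iter_mem K g⁻¹ (K.inv_mem h0) _ h4 c
    rw [hb, Subgroup.mem_bot] at h5
    exact h5

end Pool.Agent.Helper351.RE
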