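import Mathlib
import Pool.Agent.Helper351.LE.T1

set_option autoImplicit false

namespace Pool.Agent.Helper351.RE

open scoped commutatorElement

open scoped commutatorElement in
theorem tfr_lcs_comm_rot {H : Type} [Group H] (N H₁ H₂ H₃ : Subgroup H) [N.Normal]
    (h1 : ⁅⁅H₂, H₃⁆, H₁⁆ ≤ N) (h2 : ⁅⁅H₃, H₁⁆, H₂⁆ ≤ N) : ⁅⁅H₁, H₂⁆, H₃⁆ ≤ N := by
  have key : ∀ K : Subgroup H, K ≤ N ↔ K.map (QuotientGroup.mk' N) = ⊥ := by
    intro K
    rw [Subgroup.map_eq_bot_iff, QuotientGroup.ker_mk']
  rw [key, Subgroup.map_commutator, Subgroup.map_commutator] at h1 h2 ⊢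
  exact Subgroup.commutator_commutator_eq_bot_of_rotate h1 h2

open scoped commutatorElement in
theorem tfr_lcs_comm_top {H : Type} [Group H] (b : ℕ) : ∀ a : ℕ,
    ⁅(⊤ : Subgroup H).lowerCentralSeries a, (⊤ : Subgroup H).lowerCentralSeries b⁆ ≤
      (⊤ : Subgroup H).lowerCentralSeries (a + b + 1) := by
  induction b with
  | zero => intro a; exact le_of_eq rfl
  | succ b ih =>
    intro a
    rw [Subgroup.commutator_comm, Subgroup.lowerCentralSeries_succ]
    refine tfr_lcs_comm_rot _ _ _ _ ?_ ?_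
    · rw [Subgroup.commutator_comm (⊤ : Subgroup H), ← Subgroup.lowerCentralSeries_succ]
      have := ih (a + 1)
      rwa [show a + 1 + b + 1 = a + (b + 1) + 1 by omega] at this
    · rw [show a + (b + 1) + 1 = (a + b + 1) + 1 by omega, Subgroup.lowerCentralSeries_succ]
      exact Subgroup.commutator_mono (ih a) le_rfl

/-- common exponent -/
theorem tfr_common_exp {H : Type} [Group H] (i : ℕ)
    (hfg : (Subgroup.lowerCentralSeries (⊤ : Subgroup H) i).FG)
    (hall : ∀ x ∈ Subgroup.lowerCentralSeries (⊤ : Subgroup H) i, ∃ m : ℕ, 0 < m ∧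
      x ^ m ∈ Subgroup.lowerCentralSeries (⊤ : Subgroup H) (i + 1)) :
    ∃ e : ℕ, 0 < e ∧ ∀ x ∈ Subgroup.lowerCentralSeries (⊤ : Subgroup H) i,
      x ^ e ∈ Subgroup.lowerCentralSeries (⊤ : Subgroup H) (i + 1) := by
  classical
  set N : Subgroup H := Subgroup.lowerCentralSeries (⊤ : Subgroup H) (i + 1) with hN
  have hNn : N.Normal := by rw [hN]; infer_instance
  let π : H →* H ⧸ N := QuotientGroup.mk' N
  have hπ1 : ∀ x : H, π x = 1 ↔ x ∈ N := fun x => QuotientGroup.eq_one_iff x
  have hcent : ∀ x ∈ Subgroup.lowerCentralSeries (⊤ : Subgroup H) i, ∀ g : H,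
      π x * π g = π g * π x := by
    intro x hx g
    have h1 : ⁅x, g⁆ ∈ N := by
      rw [hN, Subgroup.lowerCentralSeries_succ]
      exact Subgroup.commutator_mem_commutator hx (Subgroup.mem_top g)
    have h2 : π ⁅x, g⁆ = 1 := (hπ1 _).2 h1
    rw [map_commutatorElement] at h2
    exact commutatorElement_eq_one_iff_mul_comm.1 h2
  obtain ⟨S, hS⟩ := hfg
  choose! m hm0 hm using hall
  refine ⟨∏ s ∈ S, m s, Finset.prod_pos fun s hs => hm0 s ?_, ?_⟩
  · rw [← hS]; exact Subgroup.subset_closure hs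
  · intro x hx
    rw [← hπ1, map_pow]
    rw [← hS] at hx
    induction hx using Subgroup.closure_induction with
    | mem y hy =>
      have hy' : y ∈ S := hy
      have hyL : y ∈ Subgroup.lowerCentralSeries (⊤ : Subgroup H) i := by
        rw [← hS]; exact Subgroup.subset_closure hy
      rw [← Finset.mul_prod_erase S m hy', pow_mul, ← map_pow, (hπ1 _).2 (hm y hyL), one_pow]
    | one => simp
    | mul y z hy hz ihy ihz =>
      have hyL : y ∈ Subgroup.lowerCentralSeries (⊤ : Subgroup H) i := by rw [← hS]; exact hy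
      have hc : Commute (π y) (π z) := hcent y hyL z
      rw [map_mul, hc.mul_pow, ihy, ihz, one_mul]
    | inv y hy ihy => rw [map_inv, inv_pow, ihy, inv_one]

/-- step (1) -/
theorem tfr_exists {H : Type} [Group H]
    (hfg : ∀ i, (Subgroup.lowerCentralSeries (⊤ : Subgroup H) i).FG)
    (ht : ∀ (x : H) (n : ℕ), 0 < n → x ^ n = 1 → x = 1) (c : ℕ)
    (hc : Subgroup.lowerCentralSeries (⊤ : Subgroup H) (c + 1) = ⊥)
    (hc' : Subgroup.lowerCentralSeries (⊤ : Subgroup H) c ≠ ⊥) (i : ℕ) (hi : i ≤ c) :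
    ∃ x ∈ Subgroup.lowerCentralSeries (⊤ : Subgroup H) i, ∀ m : ℕ, 0 < m →
      x ^ m ∉ Subgroup.lowerCentralSeries (⊤ : Subgroup H) (i + 1) := by
  by_contra hcon
  push Not at hcon
  obtain ⟨e, he, hexp⟩ := tfr_common_exp i (hfg i) hcon
  have hstep : ∀ d : ℕ, ∀ x ∈ Subgroup.lowerCentralSeries (⊤ : Subgroup H) (i + d),
      x ^ e ∈ Subgroup.lowerCentralSeries (⊤ : Subgroup H) (i + d + 1) := by
    intro d
    induction d with
    | zero => exact hexp
    | succ d ih => exact Pool.Agent.Helper351.LE.exp_step H e (i + d) ih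
  obtain ⟨d, rfl⟩ := Nat.exists_eq_add_of_le hi
  apply hc'
  rw [Subgroup.eq_bot_iff_forall]
  intro x hx
  have h1 := hstep d x hx
  rw [hc, Subgroup.mem_bot] at h1
  exact ht x e he h1

/-- step (3): the rank bound -/
theorem tfr_rank_bound {H : Type} [Group H] (A : Subgroup H) (hA : ∀ x ∈ A, ∀ y ∈ A, x * y = y * x)
    (T : Finset H) (hT : Subgroup.closure (T : Set H) = A) (r : ℕ) (N : ℕ → Subgroup H) (hN : Antitone N)
    (x : ℕ → H) (hxA : ∀ i, i ≤ r → x i ∈ A) (hx : ∀ i, i ≤ r → x i ∈ N i)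
    (hx' : ∀ i, i ≤ r → ∀ m : ℕ, 0 < m → x i ^ m ∉ N (i + 1)) : r + 1 ≤ T.card := by
  classical
  letI cg : CommGroup A := { (inferInstance : Group A) with
    mul_comm := fun a b => Subtype.ext (hA a a.2 b b.2) }
  have hTA : ∀ t ∈ T, t ∈ A := by
    intro t ht
    rw [← hT]; exact Subgroup.subset_closure ht
  let M := Additive A
  let T' : Finset M := T.attach.image (fun t => Additive.ofMul (⟨t.1, hTA t.1 t.2⟩ : A))
  have hcard : T'.card ≤ T.card := by
    refine Finset.card_image_le.trans ?_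
    rw [Finset.card_attach]
  -- span
  have hspan : Submodule.span ℤ (T' : Set M) = ⊤ := by
    rw [eq_top_iff]
    rintro a -
    -- a.toMul : A
    have key : ∀ (y : H) (hy : y ∈ Subgroup.closure (T : Set H)) (hyA : y ∈ A),
        (Additive.ofMul (⟨y, hyA⟩ : A) : M) ∈ Submodule.span ℤ (T' : Set M) := by
      intro y hy
      induction hy using Subgroup.closure_induction with
      | mem y hy =>
        intro hyA
        apply Submodule.subset_span
        rw [Finset.mem_coe, Finset.mem_image]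
        exact ⟨⟨y, hy⟩, Finset.mem_attach _ _, rfl⟩
      | one =>
        intro hyA
        exact Submodule.zero_mem _
      | mul y z hy hz ihy ihz =>
        intro hyA
        have hy' : y ∈ A := by rw [← hT]; exact hy
        have hz' : z ∈ A := by rw [← hT]; exact hz
        have h1 : (Additive.ofMul (⟨y * z, hyA⟩ : A) : M)
            = Additive.ofMul (⟨y, hy'⟩ : A) + Additive.ofMul (⟨z, hz'⟩ : A) := rfl
        rw [h1]
        exact Submodule.add_mem _ (ihy hy') (ihz hz')
      | inv y hy ihy =>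
        intro hyA
        have hy' : y ∈ A := by rw [← hT]; exact hy
        have h1 : (Additive.ofMul (⟨y⁻¹, hyA⟩ : A) : M) = - Additive.ofMul (⟨y, hy'⟩ : A) := rfl
        rw [h1]
        exact Submodule.neg_mem _ (ihy hy')
    have h2 := key (a.toMul : A).1 (by rw [hT]; exact (a.toMul : A).2) (a.toMul : A).2
    exact h2
  let v : Fin (r + 1) → M := fun i => Additive.ofMul (⟨x i, hxA i (Nat.lt_succ_iff.mp i.2)⟩ : A)
  let NN : ℕ → AddSubgroup M := fun k => (Subgroup.comap A.subtype (N k)).toAddSubgroup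
  have hNN : ∀ (k : ℕ) (a : M), a ∈ NN k ↔ ((a.toMul : A) : H) ∈ N k := by
    intro k a; rfl
  have hv : ∀ i j : Fin (r + 1), ∀ k : ℕ, k ≤ j.val → v j ∈ NN k := by
    intro i j k hk
    rw [hNN]
    exact hN hk (hx j (Nat.lt_succ_iff.mp j.2))
  have hli : LinearIndependent ℤ v := by
    rw [Fintype.linearIndependent_iff]
    intro g hg
    have hind : ∀ n : ℕ, ∀ i : Fin (r + 1), i.val = n → g i = 0 := by
      intro n
      induction n using Nat.strong_induction_on with
      | _ n ih =>
        intro i hi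
        by_contra hgi
        have h1 : g i • v i = - ∑ j ∈ Finset.univ.erase i, g j • v j := by
          have := Finset.add_sum_erase Finset.univ (fun j => g j • v j) (Finset.mem_univ i)
          rw [hg] at this
          exact eq_neg_of_add_eq_zero_left this
        have h2 : g i • v i ∈ NN (i.val + 1) := by
          rw [h1]
          apply AddSubgroup.neg_mem
          apply AddSubgroup.sum_mem
          intro j hj
          have hne : j ≠ i := (Finset.mem_erase.mp hj).1
          rcases lt_or_gt_of_ne (fun h => hne (Fin.ext h) : j.val ≠ i.val) with hlt | hgt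
          · rw [ih j.val (hi ▸ hlt) j rfl, zero_smul]
            exact AddSubgroup.zero_mem _
          · exact AddSubgroup.zsmul_mem _ (hv i j (i.val + 1) hgt) _
        have h3 : ((g i).natAbs : ℕ) • v i ∈ NN (i.val + 1) := by
          rcases Int.natAbs_eq (g i) with h | h
          · rw [h] at h2
            rw [natCast_zsmul] at h2
            exact h2
          · rw [h, neg_smul, natCast_zsmul] at h2
            have := AddSubgroup.neg_mem _ h2
            rwa [neg_neg] at this
        rw [hNN] at h3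
        exact hx' i (Nat.lt_succ_iff.mp i.2) (g i).natAbs (Int.natAbs_pos.mpr hgi) h3
    exact fun i => hind i.val i rfl
  have h4 := linearIndependent_le_span_finset v hli T' hspan
  rw [Cardinal.mk_fin] at h4
  have h5 : r + 1 ≤ T'.card := by exact_mod_cast h4
  exact h5.trans hcard

/-- a torsion-free nilpotent group of Pruefer rank at most `r` all of whose lower central terms are finitely
generated has class at most `2r` -/
theorem tf_rank (r : ℕ) (H : Type) [Group H] (hn : Group.IsNilpotent H)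
    (hfg : ∀ i, (Subgroup.lowerCentralSeries (⊤ : Subgroup H) i).FG)
    (ht : ∀ (x : H) (n : ℕ), 0 < n → x ^ n = 1 → x = 1)
    (hr : ∀ S : Subgroup H, S.FG → ∃ T : Finset H, T.card ≤ r ∧ Subgroup.closure (T : Set H) = S) :
    Subgroup.lowerCentralSeries (⊤ : Subgroup H) (2 * r) = ⊥ := by
  classical
  by_contra hcon
  have hex : ∃ n, Subgroup.lowerCentralSeries (⊤ : Subgroup H) n = ⊥ := by
    rw [Subgroup.nilpotent_iff_lowerCentralSeries] at hn
    exact hn
  set c := Nat.find hex with hc
  have hcb : Subgroup.lowerCentralSeries (⊤ : Subgroup H) c = ⊥ := Nat.find_spec hex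
  have hlt : 2 * r < c := by
    by_contra h
    push Not at h
    apply hcon
    rw [eq_bot_iff, ← hcb]
    exact Subgroup.lowerCentralSeries_antitone _ h
  obtain ⟨c', hc'⟩ : ∃ c', c = c' + 1 := ⟨c - 1, by omega⟩
  have hmin : Subgroup.lowerCentralSeries (⊤ : Subgroup H) c' ≠ ⊥ := by
    intro h
    have := Nat.find_min' hex h
    omega
  rw [hc'] at hcb
  set i0 := c / 2 with hi0
  have h1 : ∀ i, i ≤ r → ∃ x ∈ Subgroup.lowerCentralSeries (⊤ : Subgroup H) (i0 + i), ∀ m : ℕ, 0 < m →
      x ^ m ∉ Subgroup.lowerCentralSeries (⊤ : Subgroup H) (i0 + i + 1) := by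
    intro i hi
    exact tfr_exists hfg ht c' hcb hmin (i0 + i) (by omega)
  choose! x hx hx' using h1
  obtain ⟨T, hTr, hT⟩ := hr _ (hfg i0)
  have hA : ∀ a ∈ Subgroup.lowerCentralSeries (⊤ : Subgroup H) i0,
      ∀ b ∈ Subgroup.lowerCentralSeries (⊤ : Subgroup H) i0, a * b = b * a := by
    intro a ha b hb
    have h2 : ⁅a, b⁆ ∈ Subgroup.lowerCentralSeries (⊤ : Subgroup H) (i0 + i0 + 1) :=
      tfr_lcs_comm_top i0 i0 (Subgroup.commutator_mem_commutator ha hb)
    have h3 : ⁅a, b⁆ ∈ Subgroup.lowerCentralSeries (⊤ : Subgroup H) (c' + 1) :=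
      Subgroup.lowerCentralSeries_antitone _ (by omega) h2
    rw [hcb, Subgroup.mem_bot] at h3
    exact commutatorElement_eq_one_iff_mul_comm.1 h3
  have key := tfr_rank_bound (Subgroup.lowerCentralSeries (⊤ : Subgroup H) i0) hA T hT r
    (fun k => Subgroup.lowerCentralSeries (⊤ : Subgroup H) (i0 + k))
    (fun a b hab => Subgroup.lowerCentralSeries_antitone _ (by omega)) x
    (fun i hi => Subgroup.lowerCentralSeries_antitone _ (Nat.le_add_right i0 i) (hx i hi))
    (fun i hi => hx i hi) (fun i hi => hx' i hi)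
  omega


end Pool.Agent.Helper351.RE
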