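import Mathlib
import Pool.Agent.Helper351.RE.C3
import Pool.Agent.Helper351.RE.J4

set_option autoImplicit false

namespace Pool.Agent.Helper351.RE

theorem tfRank : TfRank := fun r H _ h1 h2 h3 h4 => tf_rank r H h1 h2 h3 h4

theorem ne_poly (G : Type) [Group G] (r : ℕ) (h : PolyLI G) (hr : Rk r G) : NE G :=
  ne_all tfRank r G h hr

theorem li_class (G : Type) [Group G] (r : ℕ) (h : LI G) (hr : Rk r G) (k : ℕ) (b : Fin k → G)
    (hE : ∀ i, LE (b i)) :
    (Subgroup.closure (Set.range b)).lowerCentralSeries (2 * r) = ⊥ := by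
  obtain ⟨K, hK⟩ : ∃ K : Subgroup G, K = Subgroup.closure (Set.range b) := ⟨_, rfl⟩
  rw [← hK]
  have hb : ∀ i, b i ∈ K := fun i => hK ▸ Subgroup.subset_closure ⟨i, rfl⟩
  let a : Fin k → K := fun i => ⟨b i, hb i⟩
  have hgen : Subgroup.closure (Set.range a) = ⊤ := by
    rw [eq_top_iff]
    intro x _
    have h2 : (Subgroup.closure (Set.range a)).map K.subtype = K := by
      rw [MonoidHom.map_closure, ← Set.range_comp]
      exact hK.symm
    have h3 : (x : G) ∈ (Subgroup.closure (Set.range a)).map K.subtype := by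
      rw [h2]; exact x.2
    obtain ⟨y, hy, hyx⟩ := h3
    have : y = x := Subtype.ext hyx
    rw [← this]; exact hy
  have hEK : ∀ i, LE (a i) := fun i => LE.of_inj K.subtype K.subtype_injective (hE i)
  have h1 := li_step tfRank r k 0 K a hgen hEK (hr.inj K.subtype K.subtype_injective)
    (h.inj (K.subtype.comp (Subgroup.subtype _))
      (K.subtype_injective.comp (Subgroup.subtype_injective _)))
  rw [Nat.zero_max] at h1
  rw [← Subgroup.top_subtype_lowerCentralSeries, h1, Subgroup.map_bot]

end Pool.Agent.Helper351.RE
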